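import Pool.Agent.TH320.EX.Dim

/-!
For fixed `b > 1` and comeagre many `a > 1` there are infinitely many pairs of powers
`a ^ n`, `b ^ m` at distance less than `f n`.
-/

set_option autoImplicit false

namespace Pool.Agent.TH320.EX

open Real Filter Set MeasureTheory Topology

theorem residual_near {b : ℝ} (hb : 1 < b) (f : ℕ → ℝ) (hf : ∀ n, 0 < f n) :
    ∀ᶠ a in residual ℝ, 1 < a → Irrational (log a / log b) ∧
      {p : ℕ × ℕ | |a ^ p.1 - b ^ p.2| < f p.1}.Infinite := by
  have hlb : 0 < log b := log_pos hb
  have h1 : ∀ᶠ a in residual ℝ, ∀ q : ℚ, a ≠ exp (q * log b) := by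
    rw [eventually_countable_forall]
    intro q
    exact residual_of_dense_open isOpen_compl_singleton (dense_compl_singleton _)
  have h2 : ∀ᶠ a in residual ℝ, ∀ k : ℕ, a < 1 ∨ ∃ n, k < n ∧ ∃ m, |a ^ n - b ^ m| < f n := by
    rw [eventually_countable_forall]
    intro k
    refine residual_of_dense_open ?_ ?_
    · have : {a : ℝ | a < 1 ∨ ∃ n, k < n ∧ ∃ m, |a ^ n - b ^ m| < f n} =
          Iio 1 ∪ ⋃ n : ℕ, ⋃ _ : k < n, ⋃ m : ℕ, {a : ℝ | |a ^ n - b ^ m| < f n} := by
        ext a; simp
      rw [this]
      refine isOpen_Iio.union (isOpen_iUnion fun n => isOpen_iUnion fun _ => isOpen_iUnion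
        fun m => ?_)
      exact isOpen_lt (by fun_prop) continuous_const
    · rw [dense_iff_exists_between]
      intro u v huv
      rcases lt_or_ge u 1 with hu | hu
      · exact ⟨(u + min v 1) / 2, Or.inl (by linarith [min_le_right v 1]),
          by linarith [lt_min huv hu], by linarith [min_le_left v 1, lt_min huv hu]⟩
      · have hlog : log u / log b < log v / log b :=
          div_lt_div_of_pos_right (log_lt_log (by linarith) huv) hlb
        obtain ⟨q, hq1, hq2⟩ := exists_rat_btwn hlog
        have hq0 : (0 : ℝ) < q := lt_of_le_of_lt (div_nonneg (log_nonneg hu) hlb.le) hq1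
        rw [div_lt_iff₀ hlb] at hq1
        rw [lt_div_iff₀ hlb] at hq2
        refine ⟨exp (q * log b), Or.inr ?_, ?_, ?_⟩
        · refine ⟨q.den * (k + 1), ?_, q.num.toNat * (k + 1), ?_⟩
          · have := q.pos
            nlinarith
          · have hnum : ((q.num.toNat : ℕ) : ℝ) = (q.num : ℝ) := by
              have : (0 : ℤ) ≤ q.num := (Rat.num_pos.2 (by exact_mod_cast hq0)).le
              exact_mod_cast Int.toNat_of_nonneg this
            have e : exp (q * log b) ^ q.den = b ^ q.num.toNat := by
              rw [← exp_nat_mul, ← exp_log (by positivity : 0 < b ^ q.num.toNat), log_pow, hnum]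
              congr 1
              rw [← mul_assoc]
              congr 1
              have : (q : ℝ) = (q.num : ℝ) / (q.den : ℝ) := Rat.cast_def q
              rw [this, mul_div_cancel₀]
              exact_mod_cast q.den_ne_zero
            rw [pow_mul, e, ← pow_mul, sub_self, abs_zero]
            exact hf _
        · rw [← log_lt_iff_lt_exp (by linarith)]; exact hq1
        · rw [← lt_log_iff_exp_lt (by linarith)]; exact hq2
  filter_upwards [h1, h2] with a ha1 ha2 ha
  refine ⟨?_, ?_⟩
  · rintro ⟨q, hq⟩
    refine ha1 q ?_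
    rw [hq, div_mul_cancel₀ _ hlb.ne', exp_log (by linarith)]
  · intro hfin
    obtain ⟨N, hN⟩ := (hfin.image Prod.fst).bddAbove
    rcases ha2 N with h | ⟨n, hn, m, hm⟩
    · linarith
    · exact absurd (hN ⟨(n, m), hm, rfl⟩) (not_le.2 hn)

end Pool.Agent.TH320.EX
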