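import Pool.Agent.TH320.EX.Main
import Pool.Agent.TH320.EX.Res

/-!
Counting the near misses.
-/

set_option autoImplicit false

namespace Pool.Agent.TH320.EX

open Real Filter Set MeasureTheory Topology

open Pool.Agent.H491R3.PE

variable {b : ℝ} {y : ℕ → ℝ} {p q t : ℕ → ℕ}

theorem finite_SS_lt {a : ℝ} (ha : 1 < a) (hb : 1 < b) (n₀ : ℕ) :
    {z | z ∈ SS a b ∧ z.1 < n₀}.Finite := by
  obtain ⟨K, hK⟩ := pow_unbounded_of_one_lt (2 * a ^ n₀) hb
  refine ((finite_Iio n₀).prod (finite_Iio K)).subset ?_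
  rintro ⟨n, m⟩ ⟨⟨-, hlt⟩, hn⟩
  simp only at hlt hn
  refine ⟨hn, ?_⟩
  have hp : 1 ≤ a ^ n := one_le_pow₀ ha.le
  have h1 : |a ^ n - b ^ m| < a ^ n := by
    refine lt_of_pow_lt_pow_left₀ 2 (by positivity) (hlt.trans_le ?_)
    nlinarith
  rw [abs_lt] at h1
  have h2 : a ^ n ≤ a ^ n₀ := pow_le_pow_right₀ ha.le hn.le
  have h3 : b ^ m < b ^ K := by linarith [h1.1]
  exact (pow_lt_pow_iff_right₀ hb).1 h3

theorem Data.count (D : Data b y p q t) (hb : 1 < b) {θ : ℝ} (hθ0 : 0 < θ)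
    (hθ : ∀ j, 1 / (t j : ℝ) ≤ q j * θ - p j ∧ q j * θ - p j ≤ 2 / (t j : ℝ)) :
    ∃ M : ℕ, ∀ x : ℝ, {j : ℕ | log b / 2 * y (j + 1) ≤ x}.Finite →
      (SX (exp (θ * log b)) b x).Finite ∧
      (SX (exp (θ * log b)) b x).ncard ≤ M + {j : ℕ | log b / 2 * y (j + 1) ≤ x}.ncard ∧
      {j : ℕ | 4 * log b * y (j + 1) ≤ x}.ncard ≤ (SX (exp (θ * log b)) b x).ncard := by
  have hlb : 0 < log b := log_pos hb
  obtain ⟨n₀, hn₀⟩ := D.unique hb hθ0 hθ
  set a := exp (θ * log b) with ha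
  have ha1 : 1 < a := one_lt_exp_iff.2 (by positivity)
  have hF := finite_SS_lt ha1 hb n₀
  refine ⟨{z | z ∈ SS a b ∧ z.1 < n₀}.ncard, fun x hx => ?_⟩
  set f : ℕ → ℕ × ℕ := fun j => (q (j + 1), p (j + 1)) with hf
  have hinj : Function.Injective f := by
    intro i j h
    have := D.q_mono.injective (congrArg Prod.fst h)
    omega
  have hsub : SX a b x ⊆ {z | z ∈ SS a b ∧ z.1 < n₀} ∪
      f '' {j : ℕ | log b / 2 * y (j + 1) ≤ x} := by
    rintro z ⟨hz, hzx⟩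
    by_cases hn : z.1 < n₀
    · exact Or.inl ⟨hz, hn⟩
    · obtain ⟨j, rfl⟩ := hn₀ z hz (not_lt.1 hn)
      exact Or.inr ⟨j, (D.size hb hθ (j + 1)).1.trans hzx, rfl⟩
  have hfin := (hF.union (hx.image f)).subset hsub
  refine ⟨hfin, ?_, ?_⟩
  · refine (ncard_le_ncard hsub (hF.union (hx.image f))).trans ((ncard_union_le _ _).trans ?_)
    rw [ncard_image_of_injective _ hinj]
  · rw [← ncard_image_of_injective {j : ℕ | 4 * log b * y (j + 1) ≤ x} hinj]
    refine ncard_le_ncard ?_ hfin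
    rintro z ⟨j, hj, rfl⟩
    exact ⟨D.mem_SS hb hθ j, (D.size hb hθ (j + 1)).2.1.trans hj⟩

/-- The general existence statement. -/
theorem exists_base (hb : 1 < b) {C : ℝ} (hy1 : ∀ j, 1 ≤ y j) (hy2 : ∀ j, y j ≤ C * b ^ j)
    {u v : ℝ} (hu : 1 ≤ u) (huv : u < v) : ∃ a ∈ Ioo u v, Irrational (log a / log b) ∧
      ∃ M : ℕ, ∀ x : ℝ, {j : ℕ | log b / 2 * y (j + 1) ≤ x}.Finite →
      (SX a b x).Finite ∧
      (SX a b x).ncard ≤ M + {j : ℕ | log b / 2 * y (j + 1) ≤ x}.ncard ∧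
      {j : ℕ | 4 * log b * y (j + 1) ≤ x}.ncard ≤ (SX a b x).ncard := by
  have hlb : 0 < log b := log_pos hb
  have h0 : 0 ≤ log u / log b := div_nonneg (log_nonneg hu) hlb.le
  have h1 : log u / log b < log v / log b :=
    div_lt_div_of_pos_right (log_lt_log (by linarith) huv) hlb
  obtain ⟨p, q, t, D, hp1, hp2⟩ := exists_data hb hy1 hy2 h0 h1
  obtain ⟨θ, hθ1, hθ2, hθ⟩ := D.exists_theta
  have k1 : log u / log b < θ := hp1.trans hθ1
  have k2 : θ < log v / log b := hθ2.trans_lt hp2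
  have hθ0 : 0 < θ := lt_of_le_of_lt h0 k1
  rw [div_lt_iff₀ hlb] at k1
  rw [lt_div_iff₀ hlb] at k2
  refine ⟨exp (θ * log b), ⟨?_, ?_⟩, ?_, D.count hb hθ0 hθ⟩
  · rw [← log_lt_iff_lt_exp (by linarith)]; exact k1
  · rw [← lt_log_iff_exp_lt (by linarith)]; exact k2
  · rw [log_exp, mul_div_cancel_right₀ _ hlb.ne']
    exact D.irrational hθ

/-- `N(x) = (1 / (log a log b) + κ) (log x) ^ 2 + O(log x)`. -/
def Law (a b κ : ℝ) : Prop := ∃ C : ℝ, ∀ x : ℝ, 2 ≤ x → (NS a b x).Finite ∧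
  |((NS a b x).ncard : ℝ) - (1 / (log a * log b) + κ) * log x ^ 2| ≤ C * log x

theorem law_of_SX {a κ : ℝ} (ha : 1 < a) (hb : 1 < b) (hirr : Irrational (log a / log b))
    (h : ∃ C : ℝ, ∀ x : ℝ, 2 ≤ x → (SX a b x).Finite ∧
      |((SX a b x).ncard : ℝ) - κ * log x ^ 2| ≤ C * log x) : Law a b κ := by
  obtain ⟨C, hC⟩ := h
  have hfin : ∀ x, (SX a b x).Finite := by
    intro x
    refine (hC (max x 2) (le_max_right _ _)).1.subset ?_
    rintro z ⟨h1, h2⟩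
    exact ⟨h1, h2.trans (le_max_left _ _)⟩
  obtain ⟨C₁, hC₁⟩ := countS ha hb hirr hfin
  refine ⟨C₁ + C, fun x hx => ⟨(hC₁ x hx).1, ?_⟩⟩
  have h1 := (hC₁ x hx).2
  have h2 := (hC x hx).2
  have e : (1 / (log a * log b) + κ) * log x ^ 2 = log x ^ 2 / (log a * log b) + κ * log x ^ 2 := by
    ring
  rw [e]
  rw [abs_le] at *
  constructor <;> linarith [h1.1, h1.2, h2.1, h2.2]

theorem law_zero_of_finite {a : ℝ} (ha : 1 < a) (hb : 1 < b) (hirr : Irrational (log a / log b))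
    (h : (SS a b).Finite) : Law a b 0 := by
  refine law_of_SX ha hb hirr ⟨(SS a b).ncard / log 2, fun x hx => ⟨h.subset fun z hz => hz.1, ?_⟩⟩
  rw [zero_mul, sub_zero, abs_of_nonneg (Nat.cast_nonneg _)]
  have h1 : (SX a b x).ncard ≤ (SS a b).ncard := ncard_le_ncard (fun z hz => hz.1) h
  have h2 : log 2 ≤ log x := log_le_log (by norm_num) hx
  have h3 : 0 < log 2 := log_pos (by norm_num)
  have h4 : ((SX a b x).ncard : ℝ) ≤ (SS a b).ncard := by exact_mod_cast h1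
  refine h4.trans ?_
  rw [div_mul_eq_mul_div, le_div_iff₀ h3]
  exact mul_le_mul_of_nonneg_left h2 (Nat.cast_nonneg _)

theorem dimH_law (hb : 1 < b) : dimH {a : ℝ | 1 < a ∧ ¬ Law a b 0} = 0 := by
  have hsub : {a : ℝ | 1 < a ∧ ¬ Law a b 0} ⊆
      {a : ℝ | 1 < a ∧ ¬ Irrational (log a / log b)} ∪ {a : ℝ | 1 < a ∧ (SS a b).Infinite} := by
    rintro a ⟨ha, hl⟩
    by_cases hirr : Irrational (log a / log b)
    · refine Or.inr ⟨ha, fun hfin => hl (law_zero_of_finite ha hb hirr hfin)⟩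
    · exact Or.inl ⟨ha, hirr⟩
  refine le_antisymm ((dimH_mono hsub).trans ?_) zero_le
  rw [dimH_union, dimH_infinite_SS hb, (countable_rational hb).dimH_zero, max_self]

theorem law_pos (hb : 1 < b) {κ : ℝ} (hκ : 0 < κ) {u v : ℝ} (hu : 1 ≤ u) (huv : u < v) :
    ∃ a ∈ Ioo u v, Irrational (log a / log b) ∧ Law a b κ := by
  have hlb : 0 < log b := log_pos hb
  have hb0 : 0 < b := by linarith
  obtain ⟨a, hauv, hirr, M, hM⟩ := exists_base (y := fun j => exp (√(j / κ))) hb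
    (C := exp (1 / (4 * κ * log b))) (fun j => one_le_exp (sqrt_nonneg _)) (fun j => by
      have e : b ^ j = exp (j * log b) := by rw [exp_nat_mul, exp_log hb0]
      rw [e, ← exp_add, exp_le_exp, Real.sqrt_le_iff]
      refine ⟨by positivity, ?_⟩
      have h1 : (1 / (4 * κ * log b) + j * log b) ^ 2 =
        (1 / (4 * κ * log b) - j * log b) ^ 2 + j / κ := by
        field_simp
        ring
      rw [h1]
      nlinarith [sq_nonneg (1 / (4 * κ * log b) - j * log b)]) hu huv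
  have ha1 : 1 < a := lt_of_le_of_lt hu hauv.1
  refine ⟨a, hauv, hirr, law_of_SX ha1 hb hirr ?_⟩
  set c₁ := log (2 / log b) with hc₁
  set c₂ := log (4 * log b) with hc₂
  have hl2 : 0 < log 2 := log_pos (by norm_num)
  -- upper bound for the count
  have hup : ∀ x : ℝ, 2 ≤ x → {j : ℕ | log b / 2 * exp (√(((j + 1 : ℕ) : ℝ) / κ)) ≤ x}.Finite ∧
      ({j : ℕ | log b / 2 * exp (√(((j + 1 : ℕ) : ℝ) / κ)) ≤ x}.ncard : ℝ) ≤
        κ * (log x + c₁) ^ 2 := by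
    intro x hx
    have hx0 : 0 < x := by linarith
    have hsub : {j : ℕ | log b / 2 * exp (√(((j + 1 : ℕ) : ℝ) / κ)) ≤ x} ⊆
        (Finset.range ⌊κ * (log x + c₁) ^ 2⌋₊ : Set ℕ) := by
      intro j hj
      simp only [Finset.coe_range, mem_Iio]
      rw [Nat.lt_iff_add_one_le, Nat.le_floor_iff (by positivity)]
      have h1 : exp (√(((j + 1 : ℕ) : ℝ) / κ)) ≤ x * (2 / log b) := by
        have : log b / 2 * exp (√(((j + 1 : ℕ) : ℝ) / κ)) ≤ x := hj
        rw [mul_div_assoc', le_div_iff₀ hlb]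
        linarith
      have h2 : √(((j + 1 : ℕ) : ℝ) / κ) ≤ log x + c₁ := by
        rw [hc₁, ← log_mul hx0.ne' (by positivity), le_log_iff_exp_le (by positivity)]
        exact h1
      have h3 : ((j + 1 : ℕ) : ℝ) / κ ≤ (log x + c₁) ^ 2 := by
        calc ((j + 1 : ℕ) : ℝ) / κ = √(((j + 1 : ℕ) : ℝ) / κ) ^ 2 := (sq_sqrt (by positivity)).symm
          _ ≤ _ := pow_le_pow_left₀ (sqrt_nonneg _) h2 2
      rw [div_le_iff₀ hκ] at h3
      linarith
    refine ⟨(Finset.finite_toSet _).subset hsub, ?_⟩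
    have h1 := ncard_le_ncard hsub (Finset.finite_toSet _)
    rw [ncard_coe_finset, Finset.card_range] at h1
    calc _ ≤ ((⌊κ * (log x + c₁) ^ 2⌋₊ : ℕ) : ℝ) := by exact_mod_cast h1
      _ ≤ _ := Nat.floor_le (by positivity)
  have hlow : ∀ x : ℝ, 2 ≤ x → κ * (max (log x - c₂) 0) ^ 2 - 1 ≤
      ({j : ℕ | 4 * log b * exp (√(((j + 1 : ℕ) : ℝ) / κ)) ≤ x}.ncard : ℝ) := by
    intro x hx
    have hx0 : 0 < x := by linarith
    rcases le_or_gt (log x - c₂) 0 with hneg | hpos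
    · rw [max_eq_right hneg]
      have : (0 : ℝ) ≤ ({j : ℕ | 4 * log b * exp (√(((j + 1 : ℕ) : ℝ) / κ)) ≤ x}.ncard : ℝ) :=
        Nat.cast_nonneg _
      linarith
    rw [max_eq_left hpos.le]
    have hfin : {j : ℕ | 4 * log b * exp (√(((j + 1 : ℕ) : ℝ) / κ)) ≤ x}.Finite := by
      refine (hup x hx).1.subset fun j hj => ?_
      have h1 : 4 * log b * exp (√(((j + 1 : ℕ) : ℝ) / κ)) ≤ x := hj
      have h2 : 0 < log b * exp (√(((j + 1 : ℕ) : ℝ) / κ)) := by positivity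
      show log b / 2 * exp (√(((j + 1 : ℕ) : ℝ) / κ)) ≤ x
      linarith
    have hsub : (Finset.range ⌊κ * (log x - c₂) ^ 2⌋₊ : Set ℕ) ⊆
        {j : ℕ | 4 * log b * exp (√(((j + 1 : ℕ) : ℝ) / κ)) ≤ x} := by
      intro j hj
      simp only [Finset.coe_range, mem_Iio] at hj
      rw [Nat.lt_iff_add_one_le, Nat.le_floor_iff (by positivity)] at hj
      have h1 : √(((j + 1 : ℕ) : ℝ) / κ) ≤ log x - c₂ := by
        rw [Real.sqrt_le_iff]
        refine ⟨hpos.le, ?_⟩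
        rw [div_le_iff₀ hκ]
        linarith
      have h2 : exp (√(((j + 1 : ℕ) : ℝ) / κ)) ≤ x / (4 * log b) := by
        rw [← le_log_iff_exp_le (by positivity), log_div hx0.ne' (by positivity)]
        exact h1
      rw [le_div_iff₀ (by positivity)] at h2
      show 4 * log b * exp (√(((j + 1 : ℕ) : ℝ) / κ)) ≤ x
      linarith
    have h1 := ncard_le_ncard hsub hfin
    rw [ncard_coe_finset, Finset.card_range] at h1
    have h2 := Nat.lt_floor_add_one (κ * (log x - c₂) ^ 2)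
    have h3 : ((⌊κ * (log x - c₂) ^ 2⌋₊ : ℕ) : ℝ) ≤
      ({j : ℕ | 4 * log b * exp (√(((j + 1 : ℕ) : ℝ) / κ)) ≤ x}.ncard : ℝ) := by
      exact_mod_cast h1
    linarith
  refine ⟨max ((M : ℝ) / log 2 + κ * (2 * |c₁| + c₁ ^ 2 / log 2)) (κ * (2 * |c₂|) + 1 / log 2),
    fun x hx => ?_⟩
  obtain ⟨hf, h1⟩ := hup x hx
  obtain ⟨h2, h3, h4⟩ := hM x hf
  refine ⟨h2, ?_⟩
  have h5 := hlow x hx
  have hlx : log 2 ≤ log x := log_le_log (by norm_num) hx
  have hlx0 : 0 < log x := by linarith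
  have h3' : ((SX a b x).ncard : ℝ) ≤ M + κ * (log x + c₁) ^ 2 := by
    have : ((SX a b x).ncard : ℝ) ≤
        (M : ℝ) + ({j : ℕ | log b / 2 * exp (√(((j + 1 : ℕ) : ℝ) / κ)) ≤ x}.ncard : ℝ) := by
      exact_mod_cast h3
    linarith
  have h4' : κ * (max (log x - c₂) 0) ^ 2 - 1 ≤ ((SX a b x).ncard : ℝ) := by
    have : ({j : ℕ | 4 * log b * exp (√(((j + 1 : ℕ) : ℝ) / κ)) ≤ x}.ncard : ℝ) ≤
        ((SX a b x).ncard : ℝ) := by
      exact_mod_cast h4
    linarith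
  have one_le : 1 ≤ log x / log 2 := by rwa [le_div_iff₀ hl2, one_mul]
  have hle1 := le_max_left ((M : ℝ) / log 2 + κ * (2 * |c₁| + c₁ ^ 2 / log 2))
    (κ * (2 * |c₂|) + 1 / log 2)
  have hle2 := le_max_right ((M : ℝ) / log 2 + κ * (2 * |c₁| + c₁ ^ 2 / log 2))
    (κ * (2 * |c₂|) + 1 / log 2)
  rw [abs_le]
  constructor
  · have h6 : κ * log x ^ 2 - κ * (max (log x - c₂) 0) ^ 2 ≤ κ * (2 * |c₂|) * log x := by
      have h7 : log x ^ 2 - (max (log x - c₂) 0) ^ 2 ≤ 2 * |c₂| * log x := by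
        rcases le_or_gt (log x - c₂) 0 with hneg | hpos
        · rw [max_eq_right hneg]
          have : log x ≤ |c₂| := by linarith [le_abs_self c₂]
          nlinarith
        · rw [max_eq_left hpos.le]
          have := le_abs_self c₂
          nlinarith [sq_nonneg c₂]
      nlinarith
    have h8 : (κ * (2 * |c₂|) + 1 / log 2) * log x ≤
        (max ((M : ℝ) / log 2 + κ * (2 * |c₁| + c₁ ^ 2 / log 2)) (κ * (2 * |c₂|) + 1 / log 2)) *
          log x := mul_le_mul_of_nonneg_right hle2 hlx0.le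
    have h9 : 1 / log 2 * log x = log x / log 2 := by ring
    nlinarith
  · have h6 : κ * (log x + c₁) ^ 2 - κ * log x ^ 2 ≤ κ * (2 * |c₁| + c₁ ^ 2 / log 2) * log x := by
      have h7 : (log x + c₁) ^ 2 - log x ^ 2 ≤ (2 * |c₁| + c₁ ^ 2 / log 2) * log x := by
        have h10 : c₁ ^ 2 ≤ c₁ ^ 2 / log 2 * log x := by
          calc c₁ ^ 2 = c₁ ^ 2 * 1 := by ring
            _ ≤ c₁ ^ 2 * (log x / log 2) := mul_le_mul_of_nonneg_left one_le (sq_nonneg _)
            _ = _ := by ring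
        have h11 : c₁ * log x ≤ |c₁| * log x := mul_le_mul_of_nonneg_right (le_abs_self _) hlx0.le
        nlinarith
      nlinarith
    have h8 : ((M : ℝ) / log 2 + κ * (2 * |c₁| + c₁ ^ 2 / log 2)) * log x ≤
        (max ((M : ℝ) / log 2 + κ * (2 * |c₁| + c₁ ^ 2 / log 2)) (κ * (2 * |c₂|) + 1 / log 2)) *
          log x := mul_le_mul_of_nonneg_right hle1 hlx0.le
    have h9 : (M : ℝ) ≤ (M : ℝ) / log 2 * log x := by
      calc (M : ℝ) = M * 1 := by ring
        _ ≤ M * (log x / log 2) := mul_le_mul_of_nonneg_left one_le (Nat.cast_nonneg _)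
        _ = _ := by ring
    nlinarith

end Pool.Agent.TH320.EX
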