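import Pool.Agent.H491R3.PE.Near

/-!
Exceptional bases: for fixed `b > 1` the set of `a > 1` with infinitely many near misses has
Hausdorff dimension zero.
-/

set_option autoImplicit false

namespace Pool.Agent.TH320.EX

open Real Filter Set MeasureTheory Topology
open scoped ENNReal NNReal

open Pool.Agent.H491R3.PE

/-- Hausdorff–Cantelli lemma. -/
theorem hausdorff_cantelli {X : Type*} [EMetricSpace X] [MeasurableSpace X] [BorelSpace X]
    {ι : Type*} [Countable ι] (T : ι → Set X) {s : ℝ} (hs : 0 < s)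
    (hsum : ∑' i, Metric.ediam (T i) ^ s ≠ ∞) :
    Measure.hausdorffMeasure s {x | {i | x ∈ T i}.Infinite} = 0 := by
  have htail := ENNReal.tendsto_tsum_compl_atTop_zero hsum
  have h0 : Tendsto (fun F : Finset ι =>
      (∑' i : {x // x ∉ F}, Metric.ediam (T i) ^ s) ^ (1 / s)) atTop (𝓝 0) := by
    have := (ENNReal.continuous_rpow_const (y := 1 / s)).tendsto 0
    rw [ENNReal.zero_rpow_of_pos (by positivity)] at this
    exact this.comp htail
  have hle := Measure.hausdorffMeasure_le_liminf_tsum (ι := fun F : Finset ι => {x // x ∉ F}) s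
    {x | {i | x ∈ T i}.Infinite} (l := atTop) _ h0 (fun F i => T i)
    (Eventually.of_forall fun F i => ?_) (Eventually.of_forall fun F x hx => ?_)
  · refine le_antisymm (hle.trans ?_) zero_le
    rw [htail.liminf_eq]
  · have h1 : Metric.ediam (T i) = (Metric.ediam (T i) ^ s) ^ (1 / s) := by
      rw [← ENNReal.rpow_mul, mul_one_div_cancel hs.ne', ENNReal.rpow_one]
    rw [h1]
    refine ENNReal.rpow_le_rpow ?_ (by positivity)
    exact ENNReal.le_tsum (f := fun i : {x // x ∉ F} => Metric.ediam (T i) ^ s) i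
  · obtain ⟨i, hi, hiF⟩ := (hx : {i | x ∈ T i}.Infinite).exists_notMem_finset F
    exact mem_iUnion.2 ⟨⟨i, hiF⟩, hi⟩

theorem diam_aux {A B b a a' : ℝ} (hA : 1 < A) {n m : ℕ} (hn : 1 ≤ n) (ha : a ∈ Icc A B)
    (ha' : a' ∈ Icc A B) (h : |a ^ n - b ^ m| ^ 2 < a ^ n) (h' : |a' ^ n - b ^ m| ^ 2 < a' ^ n)
    (hle : a ≤ a') : a' - a ≤ 2 * √B * √A * (√A)⁻¹ ^ n := by
  have ha0 : 0 ≤ a := by linarith [ha.1]
  have ha0' : 0 ≤ a' := by linarith [ha'.1]
  have hr : √A ≤ √a := sqrt_le_sqrt ha.1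
  have hr' : √a ≤ √a' := sqrt_le_sqrt hle
  have hrB : √a' ≤ √B := sqrt_le_sqrt ha'.2
  have hR : 1 < √A := by rw [Real.lt_sqrt (by norm_num)]; linarith
  set r := √a with hrdef
  set r' := √a' with hrdef'
  set R := √A with hRdef
  have e1 : a = r ^ 2 := (sq_sqrt ha0).symm
  have e2 : a' = r' ^ 2 := (sq_sqrt ha0').symm
  have hr0 : 0 < r := by linarith
  have hr0' : 0 < r' := by linarith
  have f1 : |a ^ n - b ^ m| < r ^ n := by
    refine lt_of_pow_lt_pow_left₀ 2 (by positivity) (h.trans_eq ?_)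
    rw [e1]; ring
  have f2 : |a' ^ n - b ^ m| < r' ^ n := by
    refine lt_of_pow_lt_pow_left₀ 2 (by positivity) (h'.trans_eq ?_)
    rw [e2]; ring
  have g1 : a ^ n = (r ^ n) ^ 2 := by rw [e1]; ring
  have g2 : a' ^ n = (r' ^ n) ^ 2 := by rw [e2]; ring
  rw [abs_lt] at f1 f2
  have k1 : (r' ^ n - r ^ n) * (r' ^ n + r ^ n) < 1 * (r' ^ n + r ^ n) := by
    nlinarith [f1.1, f1.2, f2.1, f2.2]
  have k2 : r' ^ n - r ^ n < 1 := lt_of_mul_lt_mul_right k1 (by positivity)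
  obtain ⟨k, rfl⟩ : ∃ k, n = k + 1 := ⟨n - 1, by omega⟩
  have k3 : (r' - r) * r ^ k ≤ r' ^ (k + 1) - r ^ (k + 1) := by
    have : r ^ k ≤ r' ^ k := pow_le_pow_left₀ hr0.le hr' k
    rw [pow_succ, pow_succ]
    nlinarith [mul_le_mul_of_nonneg_left this hr0'.le]
  have k4 : (r' - r) * R ^ k < 1 := by
    have : R ^ k ≤ r ^ k := pow_le_pow_left₀ (by linarith) hr k
    nlinarith [mul_le_mul_of_nonneg_left this (by linarith : 0 ≤ r' - r)]
  have k5 : r' - r ≤ R * R⁻¹ ^ (k + 1) := by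
    have hRk : 0 < R ^ k := by positivity
    have : R * R⁻¹ ^ (k + 1) = 1 / R ^ k := by
      rw [inv_pow, pow_succ]; field_simp
    rw [this, le_div_iff₀ hRk]
    exact k4.le
  have k6 : a' - a = (r' - r) * (r' + r) := by rw [e1, e2]; ring
  have k7 : r' + r ≤ 2 * √B := by linarith
  rw [k6]
  calc (r' - r) * (r' + r) ≤ (R * R⁻¹ ^ (k + 1)) * (2 * √B) :=
        mul_le_mul k5 k7 (by positivity) (by positivity)
    _ = 2 * √B * R * R⁻¹ ^ (k + 1) := by ring

/-- The bases `a ∈ [A, B]` for which `(n, m)` is a near miss. -/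
def T (A B b : ℝ) (K : ℕ) (p : ℕ × ℕ) : Set ℝ :=
  {a | a ∈ Icc A B ∧ |a ^ p.1 - b ^ p.2| ^ 2 < a ^ p.1 ∧ 1 ≤ p.1 ∧ p.2 ≤ K * p.1}

theorem ediam_T {A B b : ℝ} (hA : 1 < A) (K : ℕ) (p : ℕ × ℕ) :
    Metric.ediam (T A B b K p) ≤ ENNReal.ofReal (2 * √B * √A * (√A)⁻¹ ^ p.1) := by
  refine Metric.ediam_le fun a ha a' ha' => ?_
  rw [edist_dist, Real.dist_eq]
  refine ENNReal.ofReal_le_ofReal ?_
  rcases le_total a a' with h | h
  · rw [abs_sub_comm, abs_of_nonneg (by linarith)]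
    exact diam_aux hA ha.2.2.1 ha.1 ha'.1 ha.2.1 ha'.2.1 h
  · rw [abs_of_nonneg (by linarith)]
    exact diam_aux hA ha.2.2.1 ha'.1 ha.1 ha'.2.1 ha.2.1 h

theorem sum_T {A B b : ℝ} (hA : 1 < A) {K : ℕ} (hK : 0 < K) {s : ℝ} (hs : 0 < s) :
    ∑' p, Metric.ediam (T A B b K p) ^ s ≠ ∞ := by
  have hR : 1 < √A := by rw [Real.lt_sqrt (by norm_num)]; linarith
  set D : ℝ := 2 * √B * √A with hD
  have hD0 : 0 ≤ D := by positivity
  set ρ : ℝ := (√A)⁻¹ with hρ
  have hρ0 : 0 < ρ := by positivity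
  have hρ1 : ρ < 1 := inv_lt_one_of_one_lt₀ hR
  set τ : ℝ := ρ ^ (s / 2) with hτ
  have hτ0 : 0 < τ := by positivity
  have hτ1 : τ < 1 := rpow_lt_one hρ0.le hρ1 (by positivity)
  set η : ℝ := τ ^ (1 / (K : ℝ)) with hη
  have hKr : (0 : ℝ) < K := by exact_mod_cast hK
  have hη0 : 0 < η := by positivity
  have hη1 : η < 1 := rpow_lt_one hτ0.le hτ1 (by positivity)
  have hsum : Summable fun p : ℕ × ℕ => D ^ s * (τ ^ p.1 * η ^ p.2) := by
    refine Summable.mul_left _ ?_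
    exact (summable_geometric_of_lt_one hτ0.le hτ1).mul_of_nonneg
      (summable_geometric_of_lt_one hη0.le hη1) (fun n => by positivity) (fun n => by positivity)
  have hle : ∀ p, Metric.ediam (T A B b K p) ^ s ≤
      ENNReal.ofReal (D ^ s * (τ ^ p.1 * η ^ p.2)) := by
    intro p
    by_cases hp : p.2 ≤ K * p.1
    · have h1 := ENNReal.rpow_le_rpow (ediam_T (B := B) (b := b) hA K p) hs.le
      refine h1.trans ?_
      rw [ENNReal.ofReal_rpow_of_nonneg (by positivity) hs.le]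
      refine ENNReal.ofReal_le_ofReal ?_
      rw [← hD, ← hρ, mul_rpow hD0 (by positivity)]
      refine mul_le_mul_of_nonneg_left ?_ (by positivity)
      have e1 : (ρ ^ p.1) ^ s = τ ^ p.1 * τ ^ p.1 := by
        rw [hτ, ← mul_pow, ← rpow_add hρ0, add_halves, ← rpow_natCast, ← rpow_natCast,
          ← rpow_mul hρ0.le, ← rpow_mul hρ0.le, mul_comm]
      rw [e1]
      refine mul_le_mul_of_nonneg_left ?_ (by positivity)
      have e2 : η ^ p.2 = τ ^ ((p.2 : ℝ) / K) := by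
        rw [hη, ← rpow_natCast, ← rpow_mul hτ0.le]; congr 1; ring
      have e3 : τ ^ p.1 = τ ^ (p.1 : ℝ) := (rpow_natCast _ _).symm
      rw [e2, e3]
      refine rpow_le_rpow_of_exponent_ge hτ0 hτ1.le ?_
      rw [div_le_iff₀ hKr]
      have : (p.2 : ℝ) ≤ (K * p.1 : ℕ) := by exact_mod_cast hp
      push_cast at this; linarith
    · have : T A B b K p = ∅ := by
        ext a
        simp only [T, mem_ofPred_eq, mem_empty_iff_false, iff_false]
        tauto
      rw [this, Metric.ediam_empty, ENNReal.zero_rpow_of_pos hs]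
      exact zero_le
  refine ne_top_of_le_ne_top ?_ (ENNReal.tsum_le_tsum hle)
  exact hsum.tsum_ofReal_ne_top

theorem infinite_T {A B b : ℝ} (hA : 1 < A) (hb : 1 < b) {K : ℕ} (hK : 2 * B ≤ b ^ K)
    {a : ℝ} (ha : a ∈ Icc A B) (h : (SS a b).Infinite) : {p | a ∈ T A B b K p}.Infinite := by
  refine (h.sdiff (finite_singleton ((0, 1) : ℕ × ℕ))).mono ?_
  rintro ⟨n, m⟩ ⟨⟨hc, hlt⟩, hne⟩
  simp only at hc hlt
  have hn : 1 ≤ n := by
    rcases Nat.eq_zero_or_pos n with h0 | h0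
    · subst h0
      rw [Nat.coprime_zero_left] at hc
      subst hc
      exact absurd rfl hne
    · exact h0
  refine ⟨ha, hlt, hn, ?_⟩
  have ha1 : 1 < a := lt_of_lt_of_le hA ha.1
  have h1 : |a ^ n - b ^ m| < a ^ n := by
    have hp : 1 ≤ a ^ n := one_le_pow₀ ha1.le
    refine lt_of_pow_lt_pow_left₀ 2 (by positivity) (hlt.trans_le ?_)
    nlinarith
  have h2 : b ^ m < (b ^ K) ^ n := by
    rw [abs_lt] at h1
    have h3 : b ^ m < 2 * a ^ n := by linarith [h1.1]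
    have h4 : (2 : ℝ) * a ^ n ≤ (2 * a) ^ n := by
      rw [mul_pow]
      refine mul_le_mul_of_nonneg_right ?_ (by positivity)
      calc (2 : ℝ) = 2 ^ 1 := by norm_num
        _ ≤ 2 ^ n := pow_le_pow_right₀ (by norm_num) hn
    refine h3.trans_le (h4.trans ?_)
    refine pow_le_pow_left₀ (by positivity) ?_ n
    linarith [ha.2]
  rw [← pow_mul] at h2
  exact ((pow_lt_pow_iff_right₀ hb).1 h2).le

theorem dimH_infinite_SS {b : ℝ} (hb : 1 < b) : dimH {a : ℝ | 1 < a ∧ (SS a b).Infinite} = 0 := by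
  have hcov : {a : ℝ | 1 < a ∧ (SS a b).Infinite} ⊆
      ⋃ k : ℕ, {a | a ∈ Icc (1 + 1 / ((k : ℝ) + 1)) (k + 1) ∧ (SS a b).Infinite} := by
    rintro a ⟨ha, h⟩
    obtain ⟨k, hk⟩ := exists_nat_one_div_lt (sub_pos.2 ha)
    obtain ⟨l, hl⟩ := exists_nat_ge a
    refine mem_iUnion.2 ⟨max k l, ⟨?_, ?_⟩, h⟩
    · have h1 : (1 : ℝ) / ((max k l : ℕ) + 1) ≤ 1 / ((k : ℝ) + 1) := by
        refine one_div_le_one_div_of_le (by positivity) ?_
        have : (k : ℝ) ≤ (max k l : ℕ) := by exact_mod_cast le_max_left k l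
        linarith
      linarith
    · have : (l : ℝ) ≤ (max k l : ℕ) := by exact_mod_cast le_max_right k l
      linarith
  refine le_antisymm ((dimH_mono hcov).trans ?_) zero_le
  rw [dimH_iUnion]
  refine iSup_le fun k => ?_
  refine dimH_le fun d hd => ?_
  by_contra hlt
  have hd0 : (0 : ℝ) < d := by
    have h1 : (0 : ℝ≥0∞) < d := not_le.1 hlt
    exact_mod_cast h1
  have hA : (1 : ℝ) < 1 + 1 / ((k : ℝ) + 1) := by
    have : (0 : ℝ) < 1 / ((k : ℝ) + 1) := by positivity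
    linarith
  obtain ⟨K, hK⟩ := pow_unbounded_of_one_lt (2 * ((k : ℝ) + 1)) hb
  have hKpos : 0 < K := by
    rcases Nat.eq_zero_or_pos K with h0 | h0
    · subst h0
      rw [pow_zero] at hK
      have : (0 : ℝ) ≤ k := Nat.cast_nonneg k
      linarith
    · exact h0
  have h0 := hausdorff_cantelli (T (1 + 1 / ((k : ℝ) + 1)) (k + 1) b K) hd0 (sum_T hA hKpos hd0)
  have hsub : {a | a ∈ Icc (1 + 1 / ((k : ℝ) + 1)) ((k : ℝ) + 1) ∧ (SS a b).Infinite} ⊆
      {x | {i | x ∈ T (1 + 1 / ((k : ℝ) + 1)) (k + 1) b K i}.Infinite} :=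
    fun a ha => infinite_T hA hb hK.le ha.1 ha.2
  have h1 := measure_mono_null hsub h0
  rw [h1] at hd
  exact ENNReal.zero_ne_top hd

theorem countable_rational {b : ℝ} (hb : 1 < b) :
    {a : ℝ | 1 < a ∧ ¬ Irrational (log a / log b)}.Countable := by
  refine (countable_range (fun q : ℚ => exp (q * log b))).mono ?_
  rintro a ⟨ha, h⟩
  simp only [Irrational, not_not] at h
  obtain ⟨q, hq⟩ := h
  refine ⟨q, ?_⟩
  have hlb : log b ≠ 0 := (log_pos hb).ne'
  simp only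
  rw [hq, div_mul_cancel₀ _ hlb, exp_log (by linarith)]

end Pool.Agent.TH320.EX
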