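import Pool.Agent.TH320.EX.Count

/-!
Bases with arbitrarily fast growing counting function, and bases without extra near misses.
-/

set_option autoImplicit false

namespace Pool.Agent.TH320.EX

open Real Filter Set MeasureTheory Topology

open Pool.Agent.H491R3.PE

theorem fast {b : ℝ} (hb : 1 < b) {Φ : ℝ → ℝ} (hΦ : Monotone Φ) {u v : ℝ} (hu : 1 ≤ u)
    (huv : u < v) : ∃ a ∈ Ioo u v, Irrational (log a / log b) ∧ (∀ x, (NS a b x).Finite) ∧
      ∀ᶠ x in atTop, Φ x ≤ ((NS a b x).ncard : ℝ) := by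
  classical
  have hlb : 0 < log b := log_pos hb
  set g : ℕ → ℕ := fun j => Nat.findGreatest (fun k => Φ (4 * log b * (k + 3)) + 1 ≤ j) j with hg
  have hb1 : 0 < b - 1 := by linarith
  obtain ⟨a, hauv, hirr, M, hM⟩ := exists_base (y := fun j => 1 + (g j : ℝ)) hb
    (C := 1 + 1 / (b - 1)) (fun j => by
      have : (0 : ℝ) ≤ g j := Nat.cast_nonneg _
      linarith) (fun j => by
      have h1 : (g j : ℝ) ≤ j := by exact_mod_cast Nat.findGreatest_le j
      have h2 := one_add_mul_le_pow (a := b - 1) (by linarith) j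
      rw [add_sub_cancel] at h2
      have h3 : (1 + 1 / (b - 1)) * (1 + (j : ℝ) * (b - 1)) =
        1 + j * (b - 1) + 1 / (b - 1) + j := by
        field_simp
        ring
      have h4 : (1 + 1 / (b - 1)) * (1 + (j : ℝ) * (b - 1)) ≤ (1 + 1 / (b - 1)) * b ^ j :=
        mul_le_mul_of_nonneg_left h2 (by positivity)
      have h5 : 0 ≤ (j : ℝ) * (b - 1) := by positivity
      have h6 : 0 ≤ 1 / (b - 1) := by positivity
      linarith) hu huv
  have ha1 : 1 < a := lt_of_le_of_lt hu hauv.1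
  have hfin : ∀ x : ℝ, {j : ℕ | log b / 2 * (1 + (g (j + 1) : ℝ)) ≤ x}.Finite := by
    intro x
    set k := ⌈2 * x / log b⌉₊ with hk
    set J := max k ⌈Φ (4 * log b * (k + 3)) + 1⌉₊ with hJ
    refine (finite_Iio J).subset fun j hj => ?_
    by_contra hJj
    simp only [mem_Iio, not_lt] at hJj
    have h1 : k ≤ g (j + 1) := by
      refine Nat.le_findGreatest ?_ ?_
      · have := le_max_left k ⌈Φ (4 * log b * (k + 3)) + 1⌉₊
        omega
      · have h2 : ⌈Φ (4 * log b * (k + 3)) + 1⌉₊ ≤ j := (le_max_right _ _).trans hJj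
        have h3 := Nat.le_ceil (Φ (4 * log b * (k + 3)) + 1)
        have h4 : ((⌈Φ (4 * log b * (k + 3)) + 1⌉₊ : ℕ) : ℝ) ≤ j := by exact_mod_cast h2
        push_cast
        linarith
    have h2 : log b / 2 * (1 + (g (j + 1) : ℝ)) ≤ x := hj
    have h3 : 2 * x / log b ≤ k := Nat.le_ceil _
    have h4 : (k : ℝ) ≤ g (j + 1) := by exact_mod_cast h1
    rw [div_le_iff₀ hlb] at h3
    nlinarith
  have hSX : ∀ x, (SX a b x).Finite := fun x => (hM x (hfin x)).1
  obtain ⟨C, hC⟩ := countS ha1 hb hirr hSX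
  have hNS : ∀ x, (NS a b x).Finite := by
    intro x
    refine (hC (max x 2) (le_max_right _ _)).1.subset fun z hz => ?_
    have hz' : |a ^ z.1 - b ^ z.2| ≤ x := hz
    exact hz'.trans (le_max_left _ _)
  refine ⟨a, hauv, hirr, hNS, ?_⟩
  filter_upwards [eventually_ge_atTop (4 * log b)] with x hx
  have h1 := (hM x (hfin x)).2.2
  have h2 : (SX a b x).ncard ≤ (NS a b x).ncard := ncard_le_ncard (fun z hz => hz.2) (hNS x)
  set k := ⌊x / (4 * log b)⌋₊ with hk
  have hx0 : 0 < x := by linarith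
  have hk1 : 1 ≤ k := by
    rw [hk, Nat.le_floor_iff (by positivity), Nat.cast_one, le_div_iff₀ (by positivity)]
    linarith
  have hk2 : (k : ℝ) * (4 * log b) ≤ x := by
    rw [← le_div_iff₀ (by positivity)]
    exact Nat.floor_le (by positivity)
  have hk3 : x < (k + 1) * (4 * log b) := by
    rw [← div_lt_iff₀ (by positivity)]
    exact Nat.lt_floor_add_one _
  have hfin4 : {j : ℕ | 4 * log b * (1 + (g (j + 1) : ℝ)) ≤ x}.Finite := by
    refine (hfin x).subset fun j hj => ?_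
    have h1 : 4 * log b * (1 + (g (j + 1) : ℝ)) ≤ x := hj
    have h2 : 0 < log b * (1 + (g (j + 1) : ℝ)) := by positivity
    show log b / 2 * (1 + (g (j + 1) : ℝ)) ≤ x
    linarith
  have hsub : (Finset.range ⌈Φ (4 * log b * (k + 3))⌉₊ : Set ℕ) ⊆
      {j : ℕ | 4 * log b * (1 + (g (j + 1) : ℝ)) ≤ x} := by
    intro j hj
    simp only [Finset.coe_range, mem_Iio] at hj
    rw [Nat.lt_ceil] at hj
    have hlt : g (j + 1) < k := by
      by_contra hge
      push Not at hge
      have hne : g (j + 1) ≠ 0 := by omega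
      have h3 := Nat.findGreatest_of_ne_zero
        (P := fun k => Φ (4 * log b * (k + 3)) + 1 ≤ ((j + 1 : ℕ) : ℝ)) (n := j + 1)
        (m := g (j + 1)) rfl hne
      have h4 : Φ (4 * log b * (k + 3)) ≤ Φ (4 * log b * (g (j + 1) + 3)) := by
        refine hΦ ?_
        have : (k : ℝ) ≤ g (j + 1) := by exact_mod_cast hge
        nlinarith
      push_cast at h3
      linarith
    have h5 : (1 : ℝ) + g (j + 1) ≤ k := by exact_mod_cast (by omega : 1 + g (j + 1) ≤ k)
    show 4 * log b * (1 + (g (j + 1) : ℝ)) ≤ x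
    nlinarith
  have h3 := ncard_le_ncard hsub hfin4
  rw [ncard_coe_finset, Finset.card_range] at h3
  have h4 := Nat.le_ceil (Φ (4 * log b * (k + 3)))
  have h5 : Φ x ≤ Φ (4 * log b * (k + 3)) := hΦ (by nlinarith)
  have h6 : ((⌈Φ (4 * log b * (k + 3))⌉₊ : ℕ) : ℝ) ≤ ((NS a b x).ncard : ℝ) := by
    exact_mod_cast h3.trans (h1.trans h2)
  linarith

theorem law_nonneg {b : ℝ} (hb : 1 < b) {κ : ℝ} (hκ : 0 ≤ κ) {u v : ℝ} (hu : 1 ≤ u)
    (huv : u < v) : ∃ a ∈ Ioo u v, Irrational (log a / log b) ∧ Law a b κ := by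
  rcases hκ.eq_or_lt with h0 | h0
  · subst h0
    by_contra hcon
    push Not at hcon
    have hsub : Ioo u v ⊆ {a : ℝ | 1 < a ∧ ¬ Irrational (log a / log b)} ∪
        {a : ℝ | 1 < a ∧ ¬ Law a b 0} := by
      intro a ha
      have ha1 : 1 < a := lt_of_le_of_lt hu ha.1
      by_cases hirr : Irrational (log a / log b)
      · exact Or.inr ⟨ha1, hcon a ha hirr⟩
      · exact Or.inl ⟨ha1, hirr⟩
    have h1 := dimH_mono hsub
    rw [dimH_union, dimH_law hb, (countable_rational hb).dimH_zero, max_self,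
      Real.dimH_of_nonempty_interior (by rw [interior_Ioo]; exact nonempty_Ioo.2 huv)] at h1
    simp at h1
  · exact law_pos hb h0 hu huv

end Pool.Agent.TH320.EX
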