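import Pool.Agent.TH320.EX.Seq

/-!
The near misses of `a = b ^ θ` for `θ` with prescribed quality of approximation.
-/

set_option autoImplicit false

namespace Pool.Agent.TH320.EX

open Real Filter Set MeasureTheory Topology

open Pool.Agent.H491R3.PE

variable {b : ℝ} {y : ℕ → ℝ} {p q t : ℕ → ℕ}

theorem Data.t_pos (D : Data b y p q t) (j : ℕ) : 0 < t j := by
  have := D.t_big j
  have := D.q_two j
  omega

theorem Data.q_mono (D : Data b y p q t) : StrictMono q := by
  refine strictMono_nat_of_lt_succ fun j => ?_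
  rw [D.q_succ]
  have := D.t_big j
  have := D.q_two j
  nlinarith

theorem Data.exists_theta (D : Data b y p q t) : ∃ θ : ℝ,
    (p 0 : ℝ) / q 0 < θ ∧ θ ≤ (p 0 : ℝ) / q 0 + 2 / q 1 ∧
    ∀ j, 1 / (t j : ℝ) ≤ q j * θ - p j ∧ q j * θ - p j ≤ 2 / (t j : ℝ) := by
  have hq : ∀ j, (0 : ℝ) < q j := fun j => by
    exact_mod_cast (by have := D.q_two j; omega : 0 < q j)
  have ht : ∀ j, (0 : ℝ) < t j := fun j => by exact_mod_cast D.t_pos j
  have hqs : ∀ j, (q (j + 1) : ℝ) = q j * t j := fun j => by rw [D.q_succ]; push_cast; ring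
  have hps : ∀ j, (p (j + 1) : ℝ) = p j * t j + 1 := fun j => by rw [D.p_succ]; push_cast; ring
  have hx : ∀ j, (p (j + 1) : ℝ) / q (j + 1) = (p j : ℝ) / q j + 1 / q (j + 1) := by
    intro j
    rw [hqs, hps]
    have h1 := (hq j).ne'
    have h2 := (ht j).ne'
    field_simp
  have hmono : Monotone fun j => (p j : ℝ) / q j := by
    refine monotone_nat_of_le_succ fun j => ?_
    rw [hx j]
    have : 0 < 1 / (q (j + 1) : ℝ) := div_pos one_pos (hq _)
    linarith
  have hanti : Antitone fun j => (p j : ℝ) / q j + 2 / q (j + 1) := by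
    refine antitone_nat_of_succ_le fun j => ?_
    rw [hx j]
    have h1 : 2 / (q (j + 1 + 1) : ℝ) ≤ 1 / q (j + 1) := by
      rw [div_le_div_iff₀ (hq _) (hq _), hqs (j + 1)]
      have : (2 : ℝ) ≤ t (j + 1) := by
        have h1 := D.t_big (j + 1)
        have h2 := D.q_two (j + 1)
        exact_mod_cast (by omega : 2 ≤ t (j + 1))
      nlinarith [hq (j + 1)]
    have h2 : 2 / (q (j + 1) : ℝ) = 1 / q (j + 1) + 1 / q (j + 1) := by ring
    linarith
  have hle : (fun j => (p j : ℝ) / q j) ≤ fun j => (p j : ℝ) / q j + 2 / q (j + 1) := by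
    intro j
    have : 0 < 2 / (q (j + 1) : ℝ) := div_pos two_pos (hq _)
    simp only
    linarith
  have hmem := hmono.ciSup_mem_iInter_Icc_of_antitone hanti hle
  set θ := ⨆ j, (p j : ℝ) / q j with hθ
  rw [mem_iInter] at hmem
  refine ⟨θ, ?_, (hmem 0).2, fun j => ⟨?_, ?_⟩⟩
  · have h1 := (hmem 1).1
    have h2 := hx 0
    have : 0 < 1 / (q (0 + 1) : ℝ) := div_pos one_pos (hq _)
    simp only [zero_add] at h2 this
    linarith
  · have h1 := (hmem (j + 1)).1
    rw [hx j, hqs] at h1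
    have h2 : (q j : ℝ) * ((p j : ℝ) / q j + 1 / (q j * t j)) ≤ q j * θ :=
      mul_le_mul_of_nonneg_left h1 (hq j).le
    have h3 : (q j : ℝ) * ((p j : ℝ) / q j + 1 / (q j * t j)) = p j + 1 / t j := by
      have h1 := (hq j).ne'
      have h2 := (ht j).ne'
      field_simp
    linarith
  · have h1 := (hmem j).2
    rw [hqs] at h1
    have h2 : q j * θ ≤ (q j : ℝ) * ((p j : ℝ) / q j + 2 / (q j * t j)) :=
      mul_le_mul_of_nonneg_left h1 (hq j).le
    have h3 : (q j : ℝ) * ((p j : ℝ) / q j + 2 / (q j * t j)) = p j + 2 / t j := by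
      have h1 := (hq j).ne'
      have h2 := (ht j).ne'
      field_simp
    linarith

theorem Data.coprime (D : Data b y p q t) (j : ℕ) : (q (j + 1)).Coprime (p (j + 1)) := by
  rw [D.q_succ, D.p_succ]
  have h1 : (t j).Coprime (p j * t j + 1) := by
    rw [Nat.coprime_mul_right_add_right]
    exact Nat.coprime_one_right _
  exact Nat.Coprime.mul_left (Nat.Coprime.of_dvd_left (D.q_dvd j) h1) h1

theorem Data.irrational (D : Data b y p q t) {θ : ℝ}
    (hθ : ∀ j, 1 / (t j : ℝ) ≤ q j * θ - p j ∧ q j * θ - p j ≤ 2 / (t j : ℝ)) :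
    Irrational θ := by
  rintro ⟨r, hr⟩
  have hden : (0 : ℝ) < r.den := by exact_mod_cast r.pos
  obtain ⟨j, hj⟩ : ∃ j, 2 * r.den < t j := by
    refine ⟨2 * r.den, ?_⟩
    have h1 := D.q_mono.id_le (2 * r.den)
    simp only [id] at h1
    have h2 := D.t_big (2 * r.den)
    have h3 := r.pos
    omega
  obtain ⟨h1, h2⟩ := hθ j
  have ht : (0 : ℝ) < t j := by exact_mod_cast D.t_pos j
  have hj' : 2 * (r.den : ℝ) < t j := by exact_mod_cast hj
  have e : θ = (r.num : ℝ) / r.den := by rw [← hr, Rat.cast_def]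
  have h3 : (0 : ℝ) < q j * θ - p j := lt_of_lt_of_le (by positivity) h1
  have h4 : q j * θ - p j < 1 / r.den := by
    refine h2.trans_lt ?_
    rw [div_lt_div_iff₀ ht hden]
    linarith
  rw [e] at h3 h4
  have h5 : (q j : ℝ) * (r.num / r.den) - p j = ((q j * r.num - p j * r.den : ℤ) : ℝ) / r.den := by
    push_cast
    field_simp
  rw [h5] at h3 h4
  have h6 : (0 : ℝ) < ((q j * r.num - p j * r.den : ℤ) : ℝ) := by
    by_contra hn
    exact absurd h3 (not_lt.2 (div_nonpos_of_nonpos_of_nonneg (not_lt.1 hn) hden.le))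
  have h7 : ((q j * r.num - p j * r.den : ℤ) : ℝ) < 1 := by
    rwa [div_lt_div_iff_of_pos_right hden] at h4
  have h8 : (0 : ℤ) < q j * r.num - p j * r.den := by exact_mod_cast h6
  have h9 : (q j * r.num - p j * r.den : ℤ) < 1 := by exact_mod_cast h7
  omega

theorem Data.size (D : Data b y p q t) (hb : 1 < b) {θ : ℝ}
    (hθ : ∀ j, 1 / (t j : ℝ) ≤ q j * θ - p j ∧ q j * θ - p j ≤ 2 / (t j : ℝ)) (j : ℕ) :
    log b / 2 * y j ≤ |exp (θ * log b) ^ q j - b ^ p j| ∧
    |exp (θ * log b) ^ q j - b ^ p j| ≤ 4 * log b * y j ∧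
    b ^ p j ≤ exp (θ * log b) ^ q j := by
  have hlb : 0 < log b := log_pos hb
  have hb0 : 0 < b := by linarith
  obtain ⟨h1, h2⟩ := hθ j
  set δ : ℝ := q j * θ - p j with hδ
  have ht : (0 : ℝ) < t j := by exact_mod_cast D.t_pos j
  have ht1 : (1 : ℝ) ≤ t j := by exact_mod_cast D.t_pos j
  have hδ0 : 0 < δ := lt_of_lt_of_le (by positivity) h1
  have e : exp (θ * log b) ^ q j = b ^ p j * exp (δ * log b) := by
    have : b ^ p j = exp (p j * log b) := by rw [exp_nat_mul, exp_log hb0]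
    rw [← exp_nat_mul, this, ← exp_add]
    congr 1
    rw [hδ]; ring
  have hy := D.y_lo j
  have ht2 : 2 * log b ≤ t j := by
    by_cases hh : 2 * log b ≤ 1
    · linarith
    · push Not at hh
      have h3 := D.y_hi j
      have h4 := D.t_lo j
      have h5 : (4 * log b) ^ 2 * y j < t j := by
        have : (4 * log b) ^ 2 * y j * y j < t j * y j := by nlinarith
        exact lt_of_mul_lt_mul_right this (by linarith)
      nlinarith
  have hδ1 : δ * log b ≤ 1 := by
    have : δ * log b ≤ 2 / t j * log b := mul_le_mul_of_nonneg_right h2 hlb.le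
    refine this.trans ?_
    rw [div_mul_eq_mul_div, div_le_one ht]
    exact ht2
  have hb1 : 0 < b ^ p j := by positivity
  have hexp1 : δ * log b ≤ exp (δ * log b) - 1 := by
    have := add_one_le_exp (δ * log b)
    linarith
  have hexp2 : exp (δ * log b) - 1 ≤ 2 * (δ * log b) := by
    have h3 : 0 ≤ δ * log b := by positivity
    have h4 := Real.abs_exp_sub_one_le (x := δ * log b) (by rw [abs_of_nonneg h3]; exact hδ1)
    rw [abs_of_nonneg h3] at h4
    exact (le_abs_self _).trans h4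
  have e2 : exp (θ * log b) ^ q j - b ^ p j = b ^ p j * (exp (δ * log b) - 1) := by
    rw [e]; ring
  have hnn : 0 ≤ b ^ p j * (exp (δ * log b) - 1) := by
    refine mul_nonneg hb1.le ?_
    have : 0 ≤ δ * log b := by positivity
    linarith
  rw [e2, abs_of_nonneg hnn]
  refine ⟨?_, ?_, ?_⟩
  · have h3 := D.t_hi j
    have h4 : b ^ p j * (1 / t j * log b) ≤ b ^ p j * (exp (δ * log b) - 1) := by
      refine mul_le_mul_of_nonneg_left ?_ hb1.le
      refine le_trans ?_ hexp1
      exact mul_le_mul_of_nonneg_right h1 hlb.le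
    refine le_trans ?_ h4
    have : log b / 2 * y j = (y j * t j) * (1 / t j * log b) / 2 := by
      field_simp
    rw [this]
    have h5 : (y j * t j) * (1 / t j * log b) ≤ 2 * b ^ p j * (1 / t j * log b) :=
      mul_le_mul_of_nonneg_right h3 (by positivity)
    linarith
  · have h3 := D.t_lo j
    have h4 : b ^ p j * (exp (δ * log b) - 1) ≤ b ^ p j * (2 * (2 / t j * log b)) := by
      refine mul_le_mul_of_nonneg_left ?_ hb1.le
      refine hexp2.trans ?_
      have := mul_le_mul_of_nonneg_right h2 hlb.le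
      linarith
    refine h4.trans ?_
    have h5 : b ^ p j * (2 * (2 / t j * log b)) ≤ (y j * t j) * (2 * (2 / t j * log b)) :=
      mul_le_mul_of_nonneg_right h3 (by positivity)
    refine h5.trans (le_of_eq ?_)
    field_simp
    ring
  · rw [e]
    have h3 : 1 ≤ exp (δ * log b) := one_le_exp (by positivity)
    nlinarith

theorem Data.mem_SS (D : Data b y p q t) (hb : 1 < b) {θ : ℝ}
    (hθ : ∀ j, 1 / (t j : ℝ) ≤ q j * θ - p j ∧ q j * θ - p j ≤ 2 / (t j : ℝ)) (j : ℕ) :
    (q (j + 1), p (j + 1)) ∈ SS (exp (θ * log b)) b := by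
  refine ⟨D.coprime j, ?_⟩
  obtain ⟨h1, h2, h3⟩ := D.size hb hθ (j + 1)
  simp only
  calc |exp (θ * log b) ^ q (j + 1) - b ^ p (j + 1)| ^ 2 ≤ (4 * log b * y (j + 1)) ^ 2 :=
        pow_le_pow_left₀ (abs_nonneg _) h2 2
    _ < b ^ p (j + 1) := D.y_hi _
    _ ≤ _ := h3

theorem Data.unique (D : Data b y p q t) (hb : 1 < b) {θ : ℝ} (hθ0 : 0 < θ)
    (hθ : ∀ j, 1 / (t j : ℝ) ≤ q j * θ - p j ∧ q j * θ - p j ≤ 2 / (t j : ℝ)) :
    ∃ n₀ : ℕ, ∀ z ∈ SS (exp (θ * log b)) b, n₀ ≤ z.1 → ∃ j, z = (q (j + 1), p (j + 1)) := by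
  have hlb : 0 < log b := log_pos hb
  have hb0 : 0 < b := by linarith
  set a := exp (θ * log b) with ha
  have ha1 : 1 < a := one_lt_exp_iff.2 (by positivity)
  have hloga : log a = θ * log b := log_exp _
  have hratio : log a / log b = θ := by rw [hloga]; field_simp
  have hsa : 1 < √a := sqrt_gt ha1
  obtain ⟨n₁, hn₁, hnear⟩ := nearS ha1 hb
  obtain ⟨n₂, hn₂⟩ := eventually_small ha1 (B := log b / 2) (by positivity)
  refine ⟨max n₁ (q (n₂ + 1)), ?_⟩
  rintro ⟨n, m⟩ hz hn
  simp only at hn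
  have hn1 : n₁ ≤ n := (le_max_left _ _).trans hn
  have hn2 : q (n₂ + 1) ≤ n := (le_max_right _ _).trans hn
  obtain ⟨-, hnm⟩ := hnear _ hz hn1
  simp only at hnm
  rw [hratio] at hnm
  have hcop : n.Coprime m := hz.1
  -- locate n
  have hex : ∃ i, n < q i := ⟨n + 1, by
    have := D.q_mono.id_le (n + 1)
    simp only [id] at this
    omega⟩
  have hfind := Nat.find_spec hex
  have hmin : ∀ i, i < Nat.find hex → q i ≤ n := fun i hi => not_lt.1 (Nat.find_min hex hi)
  have hgt : n₂ + 1 < Nat.find hex := by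
    by_contra h
    push Not at h
    have := D.q_mono.monotone h
    omega
  obtain ⟨j, hj⟩ : ∃ j, Nat.find hex = j + 2 := ⟨Nat.find hex - 2, by omega⟩
  rw [hj] at hfind hgt
  have hqj : q (j + 1) ≤ n := hmin (j + 1) (by omega)
  have hjn : n₂ ≤ j := by omega
  set Q := q (j + 1) with hQ
  set P := p (j + 1) with hP
  set Tj := t (j + 1) with hTj
  have hQn : n₂ ≤ Q := by
    have := D.q_mono.id_le (j + 1)
    simp only [id] at this
    omega
  have hQ2 : 2 ≤ Q := D.q_two _
  have hQ0 : (0 : ℝ) < Q := by exact_mod_cast (by omega : 0 < Q)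
  have hsQ : 0 < √a ^ Q := by positivity
  have hsmall : 8 * (Q : ℝ) / log b < √a ^ Q := by
    have h1 := hn₂ Q hQn
    rw [div_lt_div_iff₀ hsQ two_pos] at h1
    rw [div_lt_iff₀ hlb]
    linarith
  have hT : 12 * (Q : ℝ) ≤ Tj := by exact_mod_cast D.t_big (j + 1)
  have hT0 : (0 : ℝ) < Tj := by linarith
  obtain ⟨hδ1, hδ2⟩ := hθ (j + 1)
  rw [← hQ, ← hP, ← hTj] at hδ1 hδ2
  -- Step A
  have hQ' : (q (j + 2) : ℝ) = Q * Tj := by rw [D.q_succ (j + 1)]; push_cast; ring
  have hQ'0 : (0 : ℝ) < q (j + 2) := by rw [hQ']; positivity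
  have hT' : 12 * (q (j + 2) : ℝ) ≤ t (j + 2) := by exact_mod_cast D.t_big (j + 2)
  have hT'0 : (0 : ℝ) < t (j + 2) := by linarith
  obtain ⟨hδ1', hδ2'⟩ := hθ (j + 2)
  have hnr : (n : ℝ) < q (j + 2) := by exact_mod_cast hfind
  have hsn : 0 < √a ^ n := by positivity
  have hA : 1 / 2 ≤ |(n : ℝ) * θ - m| * q (j + 2) := by
    have hne : (n : ℤ) * p (j + 2) - m * q (j + 2) ≠ 0 := by
      intro h0
      have h1 : n * p (j + 2) = m * q (j + 2) := by
        have : (n : ℤ) * p (j + 2) = m * q (j + 2) := by omega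
        exact_mod_cast this
      have h2 : q (j + 2) ∣ n := by
        have : q (j + 2) ∣ n * p (j + 2) := by rw [h1]; exact Dvd.intro_left _ rfl
        exact (D.coprime (j + 1)).dvd_of_dvd_mul_right this
      have := Nat.le_of_dvd (by omega) h2
      omega
    have h1 : (1 : ℝ) ≤ |((n : ℤ) * p (j + 2) - m * q (j + 2) : ℤ)| := by
      exact_mod_cast Int.one_le_abs hne
    have e : ((n : ℝ) * θ - m) * q (j + 2) =
        (((n : ℤ) * p (j + 2) - m * q (j + 2) : ℤ) : ℝ) + n * (q (j + 2) * θ - p (j + 2)) := by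
      push_cast; ring
    have h2 : |(n : ℝ) * (q (j + 2) * θ - p (j + 2))| ≤ 1 / 2 := by
      rw [abs_of_nonneg (mul_nonneg (Nat.cast_nonneg _) (le_trans (by positivity) hδ1'))]
      have h3 : (n : ℝ) * (q (j + 2) * θ - p (j + 2)) ≤ q (j + 2) * (2 / t (j + 2)) := by
        refine mul_le_mul hnr.le hδ2' (le_trans (by positivity) hδ1') hQ'0.le
      refine h3.trans ?_
      rw [mul_div_assoc', div_le_div_iff₀ hT'0 two_pos]
      linarith
    have h3 : |(n : ℝ) * θ - m| * q (j + 2) = |((n : ℝ) * θ - m) * q (j + 2)| := by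
      rw [abs_mul, abs_of_pos hQ'0]
    rw [h3, e]
    push_cast at h1 ⊢
    have h4 := abs_sub_abs_le_abs_sub ((n : ℝ) * p (j + 2) - m * q (j + 2))
      (-(n * (q (j + 2) * θ - p (j + 2))))
    rw [abs_neg, sub_neg_eq_add] at h4
    linarith
  have hn3 : n < 3 * Q := by
    by_contra h
    push Not at h
    have h1 : 1 / 2 ≤ 2 / log b / √a ^ n * (Q * Tj) := by
      rw [← hQ']
      exact hA.trans (mul_le_mul_of_nonneg_right hnm hQ'0.le)
    have h2 : (Tj : ℝ) ≤ 2 * a ^ Q := by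
      have h3 := D.t_hi (j + 1)
      have h4 := D.y_lo (j + 1)
      have h5 := (D.size hb hθ (j + 1)).2.2
      rw [← ha, ← hQ, ← hP] at h5
      rw [← hTj, ← hP] at h3
      nlinarith
    have h3 : (√a ^ Q) * (a ^ Q) ≤ √a ^ n := by
      have : a ^ Q = √a ^ (2 * Q) := by rw [pow_mul, sq_sqrt (by linarith)]
      rw [this, ← pow_add]
      exact pow_le_pow_right₀ hsa.le (by omega)
    have haQ : 0 < a ^ Q := by positivity
    have h4 : 2 / log b / √a ^ n * (Q * Tj) < 1 / 2 := by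
      rw [div_div, div_mul_eq_mul_div, div_lt_div_iff₀ (by positivity) two_pos]
      rw [div_lt_iff₀ hlb] at hsmall
      have h5 : 2 * (Q * (Tj : ℝ)) * 2 ≤ 8 * Q * a ^ Q := by nlinarith
      have h6 : 8 * (Q : ℝ) * a ^ Q < √a ^ Q * log b * a ^ Q :=
        mul_lt_mul_of_pos_right hsmall haQ
      have h7 : √a ^ Q * log b * a ^ Q ≤ 1 * (log b * √a ^ n) := by nlinarith
      linarith
    linarith
  -- Step B
  refine ⟨j, ?_⟩
  by_contra hne
  have hnr3 : (n : ℝ) ≤ 3 * Q := by exact_mod_cast hn3.le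
  have hne2 : (n : ℤ) * P - m * Q ≠ 0 := by
    intro h0
    have h1 : n * P = m * Q := by
      have : (n : ℤ) * P = m * Q := by omega
      exact_mod_cast this
    have hc := D.coprime j
    rw [← hQ, ← hP] at hc
    have h2 : Q ∣ n := by
      have : Q ∣ n * P := by rw [h1]; exact Dvd.intro_left _ rfl
      exact hc.dvd_of_dvd_mul_right this
    have h3 : n ∣ Q := by
      have : n ∣ m * Q := by rw [← h1]; exact Dvd.intro _ rfl
      exact hcop.dvd_of_dvd_mul_left this
    have h4 : n = Q := Nat.dvd_antisymm h3 h2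
    rw [h4] at h1
    have h5 : P = m := by
      have : Q * P = Q * m := by rw [h1]; ring
      exact Nat.eq_of_mul_eq_mul_left (by omega) this
    exact hne (by rw [← h5, h4])
  have hB : 1 / 2 ≤ |(n : ℝ) * θ - m| * Q := by
    have h1 : (1 : ℝ) ≤ |((n : ℤ) * P - m * Q : ℤ)| := by
      exact_mod_cast Int.one_le_abs hne2
    have e : ((n : ℝ) * θ - m) * Q =
        (((n : ℤ) * P - m * Q : ℤ) : ℝ) + n * (Q * θ - P) := by
      push_cast; ring
    have h2 : |(n : ℝ) * (Q * θ - P)| ≤ 1 / 2 := by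
      rw [abs_of_nonneg (mul_nonneg (Nat.cast_nonneg _) (le_trans (by positivity) hδ1))]
      have h3 : (n : ℝ) * (Q * θ - P) ≤ (3 * Q) * (2 / Tj) := by
        refine mul_le_mul hnr3 hδ2 (le_trans (by positivity) hδ1) (by positivity)
      refine h3.trans ?_
      rw [mul_div_assoc', div_le_div_iff₀ hT0 two_pos]
      linarith
    have h3 : |(n : ℝ) * θ - m| * Q = |((n : ℝ) * θ - m) * Q| := by
      rw [abs_mul, abs_of_pos hQ0]
    rw [h3, e]
    push_cast at h1 ⊢
    have h4 := abs_sub_abs_le_abs_sub ((n : ℝ) * P - m * Q) (-(n * (Q * θ - P)))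
    rw [abs_neg, sub_neg_eq_add] at h4
    linarith
  have h1 : |(n : ℝ) * θ - m| ≤ 2 / log b / √a ^ Q := by
    refine hnm.trans ?_
    refine div_le_div_of_nonneg_left (by positivity) hsQ ?_
    exact pow_le_pow_right₀ hsa.le hqj
  have h2 : |(n : ℝ) * θ - m| * Q ≤ 2 / log b / √a ^ Q * Q := mul_le_mul_of_nonneg_right h1 hQ0.le
  have h3 : 2 / log b / √a ^ Q * Q < 1 / 2 := by
    rw [div_div, div_mul_eq_mul_div, div_lt_div_iff₀ (by positivity) two_pos]
    rw [div_lt_iff₀ hlb] at hsmall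
    linarith
  linarith

end Pool.Agent.TH320.EX
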