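import Pool.Agent.TH320.EX.Count

/-!
Pairs of powers with `|a ^ n - t b ^ m| ≤ x` for a generic multiplier `t`.
-/

set_option autoImplicit false

namespace Pool.Agent.TH320.EX

open Real Filter Set MeasureTheory Topology
open scoped ENNReal NNReal

open Pool.Agent.H491R3.PE

variable {a b t : ℝ}

/-- the pairs with `|a ^ n - t b ^ m| ≤ x` -/
def TS (a b t x : ℝ) : Set (ℕ × ℕ) := {p | |a ^ p.1 - t * b ^ p.2| ≤ x}

/-- the near misses `|a ^ n - t b ^ m| < a ^ (n / 2)` -/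
def TM (a b t : ℝ) : Set (ℕ × ℕ) := {p | |a ^ p.1 - t * b ^ p.2| ^ 2 < a ^ p.1}

theorem summable_cover {T : ℕ × ℕ → Set ℝ} {D ρ : ℝ} (hD0 : 0 ≤ D) (hρ0 : 0 < ρ) (hρ1 : ρ < 1)
    {K : ℕ} (hK : 0 < K) (h1 : ∀ p, Metric.ediam (T p) ≤ ENNReal.ofReal (D * ρ ^ p.1))
    (h2 : ∀ p, ¬ p.2 ≤ K * p.1 → T p = ∅) {s : ℝ} (hs : 0 < s) :
    ∑' p, Metric.ediam (T p) ^ s ≠ ∞ := by
  set τ : ℝ := ρ ^ (s / 2) with hτ
  have hτ0 : 0 < τ := by positivity
  have hτ1 : τ < 1 := rpow_lt_one hρ0.le hρ1 (by positivity)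
  set η : ℝ := τ ^ (1 / (K : ℝ)) with hη
  have hKr : (0 : ℝ) < K := by exact_mod_cast hK
  have hη0 : 0 < η := by positivity
  have hη1 : η < 1 := rpow_lt_one hτ0.le hτ1 (by positivity)
  have hsum : Summable fun p : ℕ × ℕ => D ^ s * (τ ^ p.1 * η ^ p.2) := by
    refine Summable.mul_left _ ?_
    exact (summable_geometric_of_lt_one hτ0.le hτ1).mul_of_nonneg
      (summable_geometric_of_lt_one hη0.le hη1) (fun n => by positivity) (fun n => by positivity)
  have hle : ∀ p, Metric.ediam (T p) ^ s ≤ ENNReal.ofReal (D ^ s * (τ ^ p.1 * η ^ p.2)) := by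
    intro p
    by_cases hp : p.2 ≤ K * p.1
    · have h3 := ENNReal.rpow_le_rpow (h1 p) hs.le
      refine h3.trans ?_
      rw [ENNReal.ofReal_rpow_of_nonneg (by positivity) hs.le]
      refine ENNReal.ofReal_le_ofReal ?_
      rw [mul_rpow hD0 (by positivity)]
      refine mul_le_mul_of_nonneg_left ?_ (by positivity)
      have e1 : (ρ ^ p.1) ^ s = τ ^ p.1 * τ ^ p.1 := by
        rw [hτ, ← mul_pow, ← rpow_add hρ0, add_halves, ← rpow_natCast, ← rpow_natCast,
          ← rpow_mul hρ0.le, ← rpow_mul hρ0.le, mul_comm]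
      rw [e1]
      refine mul_le_mul_of_nonneg_left ?_ (by positivity)
      have e2 : η ^ p.2 = τ ^ ((p.2 : ℝ) / K) := by
        rw [hη, ← rpow_natCast, ← rpow_mul hτ0.le]; congr 1; ring
      have e3 : τ ^ p.1 = τ ^ (p.1 : ℝ) := (rpow_natCast _ _).symm
      rw [e2, e3]
      refine rpow_le_rpow_of_exponent_ge hτ0 hτ1.le ?_
      rw [div_le_iff₀ hKr]
      have : (p.2 : ℝ) ≤ (K * p.1 : ℕ) := by exact_mod_cast hp
      push_cast at this; linarith
    · rw [h2 p hp, Metric.ediam_empty, ENNReal.zero_rpow_of_pos hs]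
      exact zero_le
  refine ne_top_of_le_ne_top ?_ (ENNReal.tsum_le_tsum hle)
  exact hsum.tsum_ofReal_ne_top

theorem sq_lt (ha : 1 < a) {n : ℕ} {z : ℝ} (h : |z| ^ 2 < a ^ n) : |z| < √a ^ n := by
  refine lt_of_pow_lt_pow_left₀ 2 (by positivity) (h.trans_eq ?_)
  rw [← pow_mul, mul_comm n 2, pow_mul, sq_sqrt (by linarith)]

/-- The multipliers in `[τ₁, τ₂]` for which `(n, m)` is a near miss. -/
def V (a b τ₁ τ₂ : ℝ) (K : ℕ) (p : ℕ × ℕ) : Set ℝ :=
  {t | t ∈ Icc τ₁ τ₂ ∧ p ∈ TM a b t ∧ 1 ≤ p.1 ∧ p.2 ≤ K * p.1}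

theorem ediam_V (ha : 1 < a) (hb : 1 < b) {τ₁ τ₂ : ℝ} (h0 : 0 < τ₁) (K : ℕ) (p : ℕ × ℕ) :
    Metric.ediam (V a b τ₁ τ₂ K p) ≤
      ENNReal.ofReal (2 * |τ₂| / (1 - (√a)⁻¹) * (√a)⁻¹ ^ p.1) := by
  have hsa := sqrt_gt ha
  have hinv : (√a)⁻¹ < 1 := inv_lt_one_of_one_lt₀ hsa
  have hden : 0 < 1 - (√a)⁻¹ := by linarith
  refine Metric.ediam_le fun t ht t' ht' => ?_
  rw [edist_dist, Real.dist_eq]
  refine ENNReal.ofReal_le_ofReal ?_
  obtain ⟨n, m⟩ := p
  have hn := ht.2.2.1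
  simp only at hn
  have e1 := sq_lt ha (show |a ^ n - t * b ^ m| ^ 2 < a ^ n from ht.2.1)
  have e2 := sq_lt ha (show |a ^ n - t' * b ^ m| ^ 2 < a ^ n from ht'.2.1)
  have hbm : 0 < b ^ m := by positivity
  have hsn : 0 < √a ^ n := by positivity
  have k1 : |t - t'| * b ^ m ≤ 2 * √a ^ n := by
    rw [abs_lt] at e1 e2
    have : |t - t'| * b ^ m = |(t - t') * b ^ m| := by rw [abs_mul, abs_of_pos hbm]
    rw [this, abs_le]
    constructor <;> nlinarith [e1.1, e1.2, e2.1, e2.2]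
  have ht2 : t ≤ |τ₂| := ht.1.2.trans (le_abs_self _)
  have htpos : 0 < t := lt_of_lt_of_le h0 ht.1.1
  have ean : a ^ n = √a ^ n * √a ^ n := by
    rw [← mul_pow, mul_self_sqrt (by linarith)]
  have hsn1 : √a ≤ √a ^ n := by
    calc √a = √a ^ 1 := (pow_one _).symm
      _ ≤ √a ^ n := pow_le_pow_right₀ hsa.le hn
  have k2 : √a ^ n * (1 - (√a)⁻¹) ≤ √a ^ n - 1 := by
    have : 1 ≤ √a ^ n * (√a)⁻¹ := by
      rw [← div_eq_mul_inv, one_le_div (by linarith)]
      exact hsn1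
    linarith
  have k3 : √a ^ n * (√a ^ n * (1 - (√a)⁻¹)) ≤ |τ₂| * b ^ m := by
    rw [abs_lt] at e1
    have h3 : √a ^ n * (√a ^ n * (1 - (√a)⁻¹)) ≤ √a ^ n * (√a ^ n - 1) :=
      mul_le_mul_of_nonneg_left k2 hsn.le
    have h4 : t * b ^ m ≤ |τ₂| * b ^ m := mul_le_mul_of_nonneg_right ht2 hbm.le
    nlinarith [e1.2]
  simp only
  have k4 : |t - t'| * (√a ^ n * (√a ^ n * (1 - (√a)⁻¹))) ≤ |τ₂| * (2 * √a ^ n) := by
    calc _ ≤ |t - t'| * (|τ₂| * b ^ m) := mul_le_mul_of_nonneg_left k3 (abs_nonneg _)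
      _ = |τ₂| * (|t - t'| * b ^ m) := by ring
      _ ≤ _ := mul_le_mul_of_nonneg_left k1 (abs_nonneg _)
  have k5 : |t - t'| * (√a ^ n * (1 - (√a)⁻¹)) ≤ |τ₂| * 2 := by
    have : √a ^ n * (|t - t'| * (√a ^ n * (1 - (√a)⁻¹))) ≤ √a ^ n * (|τ₂| * 2) := by linarith
    exact le_of_mul_le_mul_left this hsn
  rw [inv_pow, ← div_eq_mul_inv, div_div, le_div_iff₀ (by positivity)]
  linarith

theorem infinite_V (ha : 1 < a) (hb : 1 < b) {τ₁ τ₂ : ℝ} (h0 : 0 < τ₁) (h1 : τ₁ ≤ 1) {K : ℕ}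
    (hK : 2 * a / τ₁ ≤ b ^ K) (ht : t ∈ Icc τ₁ τ₂) (h : (TM a b t).Infinite) :
    {p | t ∈ V a b τ₁ τ₂ K p}.Infinite := by
  have htpos : 0 < t := lt_of_lt_of_le h0 ht.1
  obtain ⟨M, hM⟩ := pow_unbounded_of_one_lt (2 / t) hb
  refine (h.sdiff (((finite_singleton 0).prod (finite_Iio M)))).mono ?_
  rintro ⟨n, m⟩ ⟨hlt, hne⟩
  have hlt' : |a ^ n - t * b ^ m| ^ 2 < a ^ n := hlt
  have hsa := sqrt_gt ha
  have e1 := sq_lt ha hlt'
  have hsn : 1 ≤ √a ^ n := one_le_pow₀ hsa.le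
  have ean : a ^ n = √a ^ n * √a ^ n := by
    rw [← mul_pow, mul_self_sqrt (by linarith)]
  have hb2 : t * b ^ m < 2 * a ^ n := by
    rw [abs_lt] at e1
    nlinarith [e1.1]
  have hn : 1 ≤ n := by
    rcases Nat.eq_zero_or_pos n with h0 | h0
    · exfalso
      subst h0
      refine hne ⟨rfl, ?_⟩
      rw [pow_zero, mul_one] at hb2
      have h3 : b ^ m < b ^ M := by
        rw [div_lt_iff₀ htpos] at hM
        have : t * b ^ m < t * b ^ M := by linarith
        exact lt_of_mul_lt_mul_left this htpos.le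
      exact (pow_lt_pow_iff_right₀ hb).1 h3
    · exact h0
  refine ⟨ht, hlt, hn, ?_⟩
  have h2 : b ^ m < (b ^ K) ^ n := by
    have hbm : 0 < b ^ m := by positivity
    have h3 : τ₁ * b ^ m < 2 * a ^ n := lt_of_le_of_lt (mul_le_mul_of_nonneg_right ht.1 hbm.le) hb2
    have h4 : b ^ m < 2 * a ^ n / τ₁ := by rw [lt_div_iff₀ h0]; linarith
    have h5 : 2 * a ^ n / τ₁ ≤ (2 * a / τ₁) ^ n := by
      rw [div_pow, mul_pow]
      have h6 : (2 : ℝ) ≤ 2 ^ n := by
        calc (2 : ℝ) = 2 ^ 1 := by norm_num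
          _ ≤ 2 ^ n := pow_le_pow_right₀ (by norm_num) hn
      have h7 : τ₁ ^ n ≤ τ₁ := by
        calc τ₁ ^ n ≤ τ₁ ^ 1 := pow_le_pow_of_le_one h0.le h1 hn
          _ = τ₁ := pow_one _
      refine div_le_div₀ (by positivity) ?_ (by positivity) h7
      exact mul_le_mul_of_nonneg_right h6 (by positivity)
    refine h4.trans_le (h5.trans ?_)
    exact pow_le_pow_left₀ (by positivity) hK n
  rw [← pow_mul] at h2
  exact ((pow_lt_pow_iff_right₀ hb).1 h2).le

theorem dimH_infinite_TM (ha : 1 < a) (hb : 1 < b) :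
    dimH {t : ℝ | 0 < t ∧ (TM a b t).Infinite} = 0 := by
  have hcov : {t : ℝ | 0 < t ∧ (TM a b t).Infinite} ⊆
      ⋃ k : ℕ, {t | t ∈ Icc (1 / ((k : ℝ) + 1)) (k + 1) ∧ (TM a b t).Infinite} := by
    rintro t ⟨ht, h⟩
    obtain ⟨k, hk⟩ := exists_nat_one_div_lt ht
    obtain ⟨l, hl⟩ := exists_nat_ge t
    refine mem_iUnion.2 ⟨max k l, ⟨?_, ?_⟩, h⟩
    · have h1 : (1 : ℝ) / ((max k l : ℕ) + 1) ≤ 1 / ((k : ℝ) + 1) := by
        refine one_div_le_one_div_of_le (by positivity) ?_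
        have : (k : ℝ) ≤ (max k l : ℕ) := by exact_mod_cast le_max_left k l
        linarith
      linarith
    · have : (l : ℝ) ≤ (max k l : ℕ) := by exact_mod_cast le_max_right k l
      linarith
  refine le_antisymm ((dimH_mono hcov).trans ?_) zero_le
  rw [dimH_iUnion]
  refine iSup_le fun k => ?_
  refine dimH_le fun d hd => ?_
  by_contra hlt
  have hd0 : (0 : ℝ) < d := by
    have h1 : (0 : ℝ≥0∞) < d := not_le.1 hlt
    exact_mod_cast h1
  have hk0 : (0 : ℝ) < 1 / ((k : ℝ) + 1) := by positivity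
  have hk1 : 1 / ((k : ℝ) + 1) ≤ 1 := by
    rw [div_le_one (by positivity)]
    have : (0 : ℝ) ≤ k := Nat.cast_nonneg k
    linarith
  obtain ⟨K, hK⟩ := pow_unbounded_of_one_lt (2 * a / (1 / ((k : ℝ) + 1))) hb
  have hKpos : 0 < K := by
    rcases Nat.eq_zero_or_pos K with h0 | h0
    · exfalso
      subst h0
      rw [pow_zero, div_lt_one hk0] at hK
      linarith
    · exact h0
  have hsa := sqrt_gt ha
  have hinv : (√a)⁻¹ < 1 := inv_lt_one_of_one_lt₀ hsa
  have hden : 0 < 1 - (√a)⁻¹ := by linarith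
  have hsum := summable_cover (T := V a b (1 / ((k : ℝ) + 1)) (k + 1) K)
    (D := 2 * |(k : ℝ) + 1| / (1 - (√a)⁻¹)) (ρ := (√a)⁻¹) (by positivity) (by positivity) hinv
    hKpos (fun p => ediam_V ha hb hk0 K p) (fun p hp => by
      ext t
      simp only [V, mem_ofPred_eq, mem_empty_iff_false, iff_false]
      tauto) hd0
  have h0 := hausdorff_cantelli (V a b (1 / ((k : ℝ) + 1)) (k + 1) K) hd0 hsum
  have hsub : {t | t ∈ Icc (1 / ((k : ℝ) + 1)) ((k : ℝ) + 1) ∧ (TM a b t).Infinite} ⊆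
      {x | {i | x ∈ V a b (1 / ((k : ℝ) + 1)) (k + 1) K i}.Infinite} :=
    fun t ht => infinite_V ha hb hk0 hk1 hK.le ht.1 ht.2
  have h1 := measure_mono_null hsub h0
  rw [h1] at hd
  exact ENNReal.zero_ne_top hd

theorem mult_count (ha : 1 < a) (hb : 1 < b) (ht : 0 < t) (hfin : (TM a b t).Finite) :
    ∃ C : ℝ, ∀ x : ℝ, 2 ≤ x → (TS a b t x).Finite ∧
      |((TS a b t x).ncard : ℝ) - log x ^ 2 / (log a * log b)| ≤ C * log x := by
  have hA : 0 < log a := log_pos ha
  have hB : 0 < log b := log_pos hb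
  set A := log a with hAdef
  set B := log b with hBdef
  have hl2 : 0 < log 2 := log_pos (by norm_num)
  have hl3 : 0 < log 3 := log_pos (by norm_num)
  set D := |log (3 / t)| with hD
  have hD0 : 0 ≤ D := abs_nonneg _
  set c₁ : ℝ := (log 2 + A + D + B) / (A * B) + 2 / A * (log 3 / B + 1) with hc₁
  set c₀ : ℝ := (TM a b t).ncard + (log 2 + A) * (D + B) / (A * B) + (log 3 / B + 1) with hc₀
  refine ⟨c₁ + c₀ / log 2 + |log t| / (A * B), fun x hx => ?_⟩
  have hx0 : 0 < x := by linarith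
  have hlx : log 2 ≤ log x := log_le_log (by norm_num) hx
  have hlx0 : 0 < log x := by linarith
  have hone : 1 ≤ log x / log 2 := by rwa [le_div_iff₀ hl2, one_mul]
  -- the pieces
  set S₁ : Set (ℕ × ℕ) := {p | a ^ p.1 ≤ 2 * x ∧ t * b ^ p.2 ≤ 3 * x} with hS₁
  set S₂ : Set (ℕ × ℕ) := {p | 2 * x < a ^ p.1 ∧ a ^ p.1 ≤ x ^ 2 ∧ |a ^ p.1 - t * b ^ p.2| ≤ x}
    with hS₂
  have hsub : TS a b t x ⊆ TM a b t ∪ (S₁ ∪ S₂) := by
    rintro ⟨n, m⟩ hp
    have hp' : |a ^ n - t * b ^ m| ≤ x := hp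
    by_cases h1 : a ^ n ≤ 2 * x
    · refine Or.inr (Or.inl ⟨h1, ?_⟩)
      rw [abs_le] at hp'
      show t * b ^ m ≤ 3 * x
      linarith [hp'.1]
    · push Not at h1
      by_cases h2 : a ^ n ≤ x ^ 2
      · exact Or.inr (Or.inr ⟨h1, h2, hp'⟩)
      · push Not at h2
        refine Or.inl ?_
        show |a ^ n - t * b ^ m| ^ 2 < a ^ n
        exact lt_of_le_of_lt (pow_le_pow_left₀ (abs_nonneg _) hp' 2) h2
  have hc1 := set_count (S := S₁) (u := 0) (L := (log x + log 2) / A) (L2 := (log x + D) / B)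
    (f := fun _ => 0) (by positivity) (by positivity) (by
      rintro ⟨n, m⟩ ⟨h1, h2⟩
      simp only at h1 h2
      refine ⟨Nat.cast_nonneg _, ?_, Nat.cast_nonneg _, ?_⟩
      · rw [zero_add, le_div_iff₀ hA]
        have h3 := log_le_log (by positivity) h1
        rw [log_pow, log_mul (by norm_num) hx0.ne'] at h3
        show (n : ℝ) * A ≤ log x + log 2
        linarith
      · rw [zero_add, le_div_iff₀ hB]
        have h3 : b ^ m ≤ x * (3 / t) := by
          rw [mul_div_assoc', le_div_iff₀ ht]; linarith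
        have h4 := log_le_log (by positivity) h3
        rw [log_pow, log_mul hx0.ne' (by positivity)] at h4
        have h5 := le_abs_self (log (3 / t))
        show (m : ℝ) * B ≤ log x + D
        linarith)
  have hc2 := set_count (S := S₂) (u := 0) (L := 2 * log x / A) (L2 := log 3 / B)
    (f := fun n => (n * A - log 2 - log t) / B) (by positivity) (by positivity) (by
      rintro ⟨n, m⟩ ⟨h1, h2, h3⟩
      simp only at h1 h2 h3
      have han : 0 < a ^ n := by positivity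
      rw [abs_le] at h3
      refine ⟨Nat.cast_nonneg _, ?_, ?_, ?_⟩
      · rw [zero_add, le_div_iff₀ hA]
        have h4 := log_le_log (by positivity) h2
        rw [log_pow, log_pow] at h4
        push_cast at h4
        exact h4
      · show (n * A - log 2 - log t) / B ≤ (m : ℝ)
        rw [div_le_iff₀ hB]
        have h4 : a ^ n / 2 ≤ t * b ^ m := by linarith [h3.2]
        have h5 := log_le_log (by positivity) h4
        rw [log_div han.ne' (by norm_num), log_pow, log_mul ht.ne' (by positivity), log_pow] at h5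
        linarith
      · show (m : ℝ) ≤ (n * A - log 2 - log t) / B + log 3 / B
        rw [← add_div, le_div_iff₀ hB]
        have h4 : t * b ^ m ≤ 3 * (a ^ n / 2) := by linarith [h3.1]
        have h5 := log_le_log (by positivity) h4
        rw [log_mul ht.ne' (by positivity), log_pow, log_mul (by norm_num : (3 : ℝ) ≠ 0)
          (by positivity), log_div han.ne' (by norm_num), log_pow] at h5
        linarith)
  have hfinU := hfin.union (hc1.1.union hc2.1)
  have hfinTS := hfinU.subset hsub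
  refine ⟨hfinTS, ?_⟩
  have hup : ((TS a b t x).ncard : ℝ) ≤ (TM a b t).ncard +
      (((log x + log 2) / A + 1) * ((log x + D) / B + 1) +
        (2 * log x / A + 1) * (log 3 / B + 1)) := by
    have h1 := (ncard_le_ncard hsub hfinU).trans ((ncard_union_le _ _).trans
      (Nat.add_le_add_left (ncard_union_le S₁ S₂) _))
    have h2 : ((TS a b t x).ncard : ℝ) ≤ (TM a b t).ncard + (S₁.ncard + S₂.ncard) := by
      exact_mod_cast h1
    linarith [hc1.2, hc2.2]
  have hlow : log x ^ 2 / (A * B) - |log t| / (A * B) * log x ≤ ((TS a b t x).ncard : ℝ) := by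
    have hABpos : 0 < A * B := by positivity
    rcases lt_or_ge x t with hxt | hxt
    · have h1 : log x ≤ |log t| := (log_le_log hx0 hxt.le).trans (le_abs_self _)
      have h2 : log x ^ 2 / (A * B) ≤ |log t| / (A * B) * log x := by
        rw [div_mul_eq_mul_div]
        refine div_le_div_of_nonneg_right ?_ hABpos.le
        nlinarith
      have h3 : (0 : ℝ) ≤ ((TS a b t x).ncard : ℝ) := Nat.cast_nonneg _
      linarith
    · have hxt1 : 1 ≤ x / t := by rwa [one_le_div ht]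
      have hV : 0 ≤ log (x / t) / B := div_nonneg (log_nonneg hxt1) hB.le
      have hU : 0 ≤ log x / A := by positivity
      have hsub2 : ((Finset.Icc 0 ⌊log x / A⌋₊ ×ˢ Finset.Icc 0 ⌊log (x / t) / B⌋₊ :
          Finset (ℕ × ℕ)) : Set (ℕ × ℕ)) ⊆ TS a b t x := by
        rintro ⟨n, m⟩ hp
        rw [Finset.mem_coe, Finset.mem_product, Finset.mem_Icc, Finset.mem_Icc] at hp
        obtain ⟨⟨-, h1⟩, -, h2⟩ := hp
        simp only at h1 h2
        rw [Nat.le_floor_iff hU, ← pow_le_iff_log ha hx0] at h1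
        rw [Nat.le_floor_iff hV, ← pow_le_iff_log hb (by positivity), le_div_iff₀ ht] at h2
        have h3 : 0 < a ^ n := by positivity
        have h4 : 0 < t * b ^ m := by positivity
        show |a ^ n - t * b ^ m| ≤ x
        rw [abs_le]
        constructor <;> linarith
      have h1 := ncard_le_ncard hsub2 hfinTS
      rw [Set.ncard_coe_finset, Finset.card_product, Nat.card_Icc, Nat.card_Icc] at h1
      have h2 : (((⌊log x / A⌋₊ + 1 - 0) * (⌊log (x / t) / B⌋₊ + 1 - 0) : ℕ) : ℝ) ≤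
          ((TS a b t x).ncard : ℝ) := by exact_mod_cast h1
      push_cast at h2
      have h3 := (Nat.lt_floor_add_one (log x / A)).le
      have h4 := (Nat.lt_floor_add_one (log (x / t) / B)).le
      have h5 : log x / A * (log (x / t) / B) ≤
          ((⌊log x / A⌋₊ : ℝ) + 1) * ((⌊log (x / t) / B⌋₊ : ℝ) + 1) :=
        mul_le_mul h3 h4 hV (by positivity)
      have h6 : log x / A * (log (x / t) / B) = log x ^ 2 / (A * B) - log t / (A * B) * log x := by
        rw [log_div hx0.ne' ht.ne']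
        field_simp
      have h7 : log t / (A * B) * log x ≤ |log t| / (A * B) * log x := by
        refine mul_le_mul_of_nonneg_right ?_ hlx0.le
        exact div_le_div_of_nonneg_right (le_abs_self _) hABpos.le
      linarith
  have hABpos : 0 < A * B := by positivity
  have hc₁0 : 0 ≤ c₁ := by positivity
  have hc₀0 : 0 ≤ c₀ := by positivity
  have hc₀x : c₀ ≤ c₀ / log 2 * log x := by
    calc c₀ = c₀ * 1 := by ring
      _ ≤ c₀ * (log x / log 2) := mul_le_mul_of_nonneg_left hone hc₀0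
      _ = _ := by ring
  have ht0 : 0 ≤ |log t| / (A * B) * log x := by positivity
  have e : (TM a b t).ncard +
      (((log x + log 2) / A + 1) * ((log x + D) / B + 1) +
        (2 * log x / A + 1) * (log 3 / B + 1)) = log x ^ 2 / (A * B) + c₁ * log x + c₀ := by
    rw [hc₁, hc₀]
    field_simp
    ring
  rw [e] at hup
  have h0 : 0 ≤ c₁ * log x := by positivity
  have h00 : 0 ≤ c₀ / log 2 * log x := by positivity
  have ex : (c₁ + c₀ / log 2 + |log t| / (A * B)) * log x =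
    c₁ * log x + c₀ / log 2 * log x + |log t| / (A * B) * log x := by ring
  rw [ex, abs_le]
  constructor <;> linarith

end Pool.Agent.TH320.EX
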