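import Pool.Agent.TH320.EX.Dim

/-!
Sequences of fractions `p j / q j` with prescribed quality of approximation.
-/

set_option autoImplicit false

namespace Pool.Agent.TH320.EX

open Real Filter Set MeasureTheory Topology

open Pool.Agent.H491R3.PE

structure Data (b : ℝ) (y : ℕ → ℝ) (p q t : ℕ → ℕ) : Prop where
  q_succ : ∀ j, q (j + 1) = q j * t j
  p_succ : ∀ j, p (j + 1) = p j * t j + 1
  q_dvd : ∀ j, q j ∣ t j
  q_two : ∀ j, 2 ≤ q j
  t_lo : ∀ j, b ^ (p j) ≤ y j * t j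
  t_hi : ∀ j, y j * t j ≤ 2 * b ^ (p j)
  t_big : ∀ j, 12 * q j ≤ t j
  y_lo : ∀ j, 1 ≤ y j
  y_hi : ∀ j, (4 * log b * y j) ^ 2 < b ^ (p j)

theorem growth {b C r : ℝ} (hb : 1 < b) (hC : 0 < C) (hr : 0 < r) : ∃ P : ℕ, ∀ p : ℕ, P ≤ p →
    ∀ j : ℕ, 4 * j ≤ p → 12 * ((p : ℝ) / r) * (C * b ^ j) ≤ b ^ p ∧
      (4 * log b * (C * b ^ j)) ^ 2 < b ^ p := by
  have hs : 1 < √b := by rw [Real.lt_sqrt (by norm_num)]; linarith
  have hb0 : 0 < b := by linarith
  obtain ⟨P₁, hP₁⟩ := eventually_small hb (B := r / (3 * C)) (by positivity)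
  obtain ⟨P₂, hP₂⟩ := pow_unbounded_of_one_lt (16 * log b ^ 2 * C ^ 2) hs
  refine ⟨max P₁ P₂, fun p hp j hj => ⟨?_, ?_⟩⟩
  · have h1 := hP₁ p ((le_max_left _ _).trans hp)
    have hsp : 0 < √b ^ p := by positivity
    rw [div_lt_div_iff₀ hsp (by positivity)] at h1
    have h2 : √b ^ p ≤ b ^ (p - j) := by
      have e : b ^ (p - j) = √b ^ (2 * (p - j)) := by rw [pow_mul, sq_sqrt hb0.le]
      rw [e]
      exact pow_le_pow_right₀ hs.le (by omega)
    have e2 : b ^ p = b ^ (p - j) * b ^ j := by rw [← pow_add]; congr 1; omega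
    have h3 : 12 * ((p : ℝ) / r) * C ≤ √b ^ p := by
      rw [mul_div_assoc', div_mul_eq_mul_div, div_le_iff₀ hr]
      nlinarith
    rw [e2]
    have hbj : 0 < b ^ j := by positivity
    nlinarith [mul_le_mul_of_nonneg_right (h3.trans h2) hbj.le]
  · have h1 : √b ^ P₂ ≤ √b ^ p := pow_le_pow_right₀ hs.le ((le_max_right _ _).trans hp)
    have h2 : √b ^ p ≤ b ^ (p - 2 * j) := by
      have e : b ^ (p - 2 * j) = √b ^ (2 * (p - 2 * j)) := by rw [pow_mul, sq_sqrt hb0.le]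
      rw [e]
      exact pow_le_pow_right₀ hs.le (by omega)
    have e2 : b ^ p = b ^ (p - 2 * j) * (b ^ j) ^ 2 := by
      rw [← pow_mul, ← pow_add]; congr 1; omega
    rw [e2]
    have hbj : 0 < (b ^ j) ^ 2 := by positivity
    have h3 : 16 * log b ^ 2 * C ^ 2 < b ^ (p - 2 * j) := hP₂.trans_le (h1.trans h2)
    nlinarith [mul_lt_mul_of_pos_right h3 hbj]

/-- the multiplier -/
noncomputable def tt (b : ℝ) (y : ℕ → ℝ) (j : ℕ) (s : ℕ × ℕ) : ℕ :=
  s.2 * ⌈b ^ s.1 / (s.2 * y j)⌉₊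

/-- the fractions -/
noncomputable def st (b : ℝ) (y : ℕ → ℝ) (s0 : ℕ × ℕ) : ℕ → ℕ × ℕ
  | 0 => s0
  | j + 1 => ((st b y s0 j).1 * tt b y j (st b y s0 j) + 1,
      (st b y s0 j).2 * tt b y j (st b y s0 j))

theorem exists_data {b : ℝ} (hb : 1 < b) {y : ℕ → ℝ} {C : ℝ} (hy1 : ∀ j, 1 ≤ y j)
    (hy2 : ∀ j, y j ≤ C * b ^ j) {θ₁ θ₂ : ℝ} (h0 : 0 ≤ θ₁) (h12 : θ₁ < θ₂) :
    ∃ p q t : ℕ → ℕ, Data b y p q t ∧ θ₁ < (p 0 : ℝ) / q 0 ∧ (p 0 : ℝ) / q 0 + 2 / q 1 < θ₂ := by
  have hb0 : 0 < b := by linarith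
  have hC : 0 < C := by
    have := (hy1 0).trans (hy2 0)
    rw [pow_zero, mul_one] at this
    linarith
  obtain ⟨ρ, hρ1, hρ2⟩ := exists_rat_btwn h12
  have hρ0 : (0 : ℝ) < ρ := lt_of_le_of_lt h0 hρ1
  obtain ⟨P, hP⟩ := growth hb hC hρ0
  have hnumpos : 0 < ρ.num := Rat.num_pos.2 (by exact_mod_cast hρ0)
  have hnum : ((ρ.num.toNat : ℕ) : ℝ) = (ρ.num : ℝ) := by
    exact_mod_cast Int.toNat_of_nonneg hnumpos.le
  have hnum1 : 1 ≤ ρ.num.toNat := by omega
  have hden : 0 < ρ.den := ρ.pos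
  obtain ⟨s, hs⟩ := exists_nat_gt (2 / (θ₂ - ρ))
  set S := max (max P 4) s with hS
  have hSP : P ≤ S := (le_max_left _ _).trans (le_max_left _ _)
  have hS4 : 4 ≤ S := (le_max_right _ _).trans (le_max_left _ _)
  have hSs : s ≤ S := le_max_right _ _
  set s0 : ℕ × ℕ := (ρ.num.toNat * S, ρ.den * S) with hs0
  set X := st b y s0 with hX
  have hXs : ∀ j, X (j + 1) = ((X j).1 * tt b y j (X j) + 1, (X j).2 * tt b y j (X j)) :=
    fun j => rfl
  have hceil : ∀ j, 0 < (X j).2 → 1 ≤ ⌈b ^ (X j).1 / ((X j).2 * y j)⌉₊ := by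
    intro j hj
    have h1 : (0 : ℝ) < (X j).2 := by exact_mod_cast hj
    have h2 : 0 < y j := by linarith [hy1 j]
    exact Nat.one_le_ceil_iff.2 (by positivity)
  have hinv : ∀ j, 2 ≤ (X j).2 ∧ P ≤ (X j).1 ∧ 4 * 2 ^ j ≤ (X j).1 ∧
      (ρ : ℝ) * (X j).2 ≤ (X j).1 := by
    intro j
    induction j with
    | zero =>
      refine ⟨?_, ?_, ?_, ?_⟩
      · show 2 ≤ ρ.den * S
        nlinarith
      · show P ≤ ρ.num.toNat * S
        nlinarith
      · show 4 * 2 ^ 0 ≤ ρ.num.toNat * S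
        nlinarith
      · show (ρ : ℝ) * ((ρ.den * S : ℕ) : ℝ) ≤ ((ρ.num.toNat * S : ℕ) : ℝ)
        push_cast
        rw [hnum]
        have : (ρ : ℝ) = (ρ.num : ℝ) / (ρ.den : ℝ) := Rat.cast_def ρ
        have hd : (0 : ℝ) < ρ.den := by exact_mod_cast hden
        rw [this]
        field_simp
        exact le_rfl
    | succ j ih =>
      obtain ⟨i1, i2, i3, i4⟩ := ih
      have ht : 2 ≤ tt b y j (X j) := by
        have := hceil j (by omega)
        unfold tt
        nlinarith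
      rw [hXs]
      refine ⟨?_, ?_, ?_, ?_⟩
      · simp only; nlinarith
      · simp only; nlinarith
      · simp only; rw [pow_succ]; nlinarith
      · simp only
        push_cast
        have : (0 : ℝ) ≤ tt b y j (X j) := Nat.cast_nonneg _
        nlinarith
  have hj4 : ∀ j, 4 * j ≤ (X j).1 := by
    intro j
    have h1 := (hinv j).2.2.1
    have h2 : j < 2 ^ j := Nat.lt_two_pow_self
    omega
  have hg : ∀ j, 12 * ((X j).2 : ℝ) * y j ≤ b ^ (X j).1 ∧ (4 * log b * y j) ^ 2 < b ^ (X j).1 := by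
    intro j
    obtain ⟨h1, h2⟩ := hP (X j).1 (hinv j).2.1 j (hj4 j)
    have hq : ((X j).2 : ℝ) ≤ (X j).1 / ρ := by
      rw [le_div_iff₀ hρ0]; linarith [(hinv j).2.2.2]
    have hlb : 0 < log b := log_pos hb
    have hy0 : 0 < y j := by linarith [hy1 j]
    constructor
    · refine le_trans ?_ h1
      have : 12 * ((X j).2 : ℝ) ≤ 12 * ((X j).1 / ρ) := by linarith
      exact mul_le_mul this (hy2 j) hy0.le (by positivity)
    · refine lt_of_le_of_lt ?_ h2
      refine pow_le_pow_left₀ (by positivity) ?_ 2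
      exact mul_le_mul_of_nonneg_left (hy2 j) (by positivity)
  refine ⟨fun j => (X j).1, fun j => (X j).2, fun j => tt b y j (X j), ⟨fun j => rfl, fun j => rfl,
    fun j => Dvd.intro _ rfl, fun j => (hinv j).1, ?_, ?_, ?_, hy1, fun j => (hg j).2⟩, ?_, ?_⟩
  · intro j
    have hq : (0 : ℝ) < (X j).2 := by exact_mod_cast (by have := (hinv j).1; omega : 0 < (X j).2)
    have hy0 : 0 < y j := by linarith [hy1 j]
    have h := Nat.le_ceil (b ^ (X j).1 / ((X j).2 * y j))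
    rw [div_le_iff₀ (by positivity)] at h
    simp only [tt]
    push_cast
    linarith
  · intro j
    have hq : (0 : ℝ) < (X j).2 := by exact_mod_cast (by have := (hinv j).1; omega : 0 < (X j).2)
    have hy0 : 0 < y j := by linarith [hy1 j]
    have h := (Nat.ceil_lt_add_one (a := b ^ (X j).1 / ((X j).2 * y j)) (by positivity)).le
    have h2 := (hg j).1
    have h3 : (⌈b ^ (X j).1 / ((X j).2 * y j)⌉₊ : ℝ) * ((X j).2 * y j) ≤
        b ^ (X j).1 + (X j).2 * y j := by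
      calc _ ≤ (b ^ (X j).1 / ((X j).2 * y j) + 1) * ((X j).2 * y j) :=
            mul_le_mul_of_nonneg_right h (by positivity)
        _ = _ := by field_simp
    simp only [tt]
    push_cast
    have : 0 < (X j).2 * y j := by positivity
    nlinarith
  · intro j
    have hq : (0 : ℝ) < (X j).2 := by exact_mod_cast (by have := (hinv j).1; omega : 0 < (X j).2)
    have hy0 : 0 < y j := by linarith [hy1 j]
    have h := Nat.le_ceil (b ^ (X j).1 / ((X j).2 * y j))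
    rw [div_le_iff₀ (by positivity)] at h
    have h2 := (hg j).1
    have h3 : (12 * ((X j).2 : ℝ)) * y j ≤ ((X j).2 * ⌈b ^ (X j).1 / ((X j).2 * y j)⌉₊ : ℝ) * y j := by
      linarith
    have h4 := le_of_mul_le_mul_right h3 hy0
    simp only [tt]
    exact_mod_cast h4
  · show θ₁ < ((ρ.num.toNat * S : ℕ) : ℝ) / ((ρ.den * S : ℕ) : ℝ)
    have e : ((ρ.num.toNat * S : ℕ) : ℝ) / ((ρ.den * S : ℕ) : ℝ) = ρ := by
      push_cast
      rw [hnum]
      have hS0 : (0 : ℝ) < S := by exact_mod_cast (by omega : 0 < S)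
      have hd : (0 : ℝ) < ρ.den := by exact_mod_cast hden
      rw [Rat.cast_def ρ]
      field_simp
    rw [e]; exact hρ1
  · have e : (((X 0).1 : ℕ) : ℝ) / (((X 0).2 : ℕ) : ℝ) = ρ := by
      show ((ρ.num.toNat * S : ℕ) : ℝ) / ((ρ.den * S : ℕ) : ℝ) = ρ
      push_cast
      rw [hnum]
      have hS0 : (0 : ℝ) < S := by exact_mod_cast (by omega : 0 < S)
      have hd : (0 : ℝ) < ρ.den := by exact_mod_cast hden
      rw [Rat.cast_def ρ]
      field_simp
    simp only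
    rw [e]
    have h1 : s ≤ (X 1).2 := by
      have e1 : (X 1).2 = (X 0).2 * tt b y 0 (X 0) := rfl
      have e0 : (X 0).2 = ρ.den * S := rfl
      have ht : 1 ≤ tt b y 0 (X 0) := by
        have := hceil 0 (by have := (hinv 0).1; omega)
        have h2 := (hinv 0).1
        unfold tt
        nlinarith
      have : s ≤ (X 0).2 := by rw [e0]; nlinarith
      rw [e1]; nlinarith
    have h2 : (s : ℝ) ≤ (X 1).2 := by exact_mod_cast h1
    have hd : 0 < θ₂ - ρ := by linarith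
    rw [div_lt_iff₀ hd] at hs
    have h3 : (0 : ℝ) < (X 1).2 := by
      have : 0 < (X 1).2 := by have := (hinv 1).1; omega
      exact_mod_cast this
    have : 2 / ((X 1).2 : ℝ) < θ₂ - ρ := by
      rw [div_lt_iff₀ h3]
      nlinarith
    linarith

end Pool.Agent.TH320.EX
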